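import Pool.Agent.Work.MP_1a5986_lc.Defs

namespace Pool.Agent.Work.MP_1a5986_lc

open Finset

set_option linter.unusedSectionVars false

variable {ι : Type} [Fintype ι] [DecidableEq ι]

/-- Integer indicator of the event that `i` beats `j`. -/
def Tournament.W (T : Tournament ι) (i j : ι) : ℤ :=
  if j ≠ i ∧ T.res i j = Res.win then 1 else 0

theorem Tournament.wins_eq (T : Tournament ι) (i : ι) : (T.wins i : ℤ) = ∑ j, T.W i j := by
  unfold Tournament.wins Tournament.W
  rw [Finset.card_filter]
  push_cast
  rfl

theorem Tournament.loss_iff (T : Tournament ι) {i j : ι} (h : j ≠ i) :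
    T.res i j = Res.loss ↔ T.res j i = Res.win := by
  rw [T.res_swap i j h.symm]
  cases T.res i j <;> simp [Res.swap]

theorem Tournament.draw_iff (T : Tournament ι) {i j : ι} (h : j ≠ i) :
    T.res i j = Res.draw ↔ T.res j i = Res.draw := by
  rw [T.res_swap i j h.symm]
  cases T.res i j <;> simp [Res.swap]

theorem Tournament.losses_eq (T : Tournament ι) (i : ι) : (T.losses i : ℤ) = ∑ j, T.W j i := by
  unfold Tournament.losses Tournament.W
  rw [Finset.card_filter]
  push_cast
  refine Finset.sum_congr rfl fun j _ => ?_
  by_cases h : j = i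
  · simp [h]
  · have h' : i ≠ j := fun e => h e.symm
    have hl := T.loss_iff h
    by_cases hw : T.res j i = Res.win
    · simp [h, h', hl.2 hw, hw]
    · have hn : ¬ T.res i j = Res.loss := fun e => hw (hl.1 e)
      simp [hw, hn]

theorem Tournament.W_cases (T : Tournament ι) (i j : ι) : T.W i j = 0 ∨ T.W i j = 1 := by
  unfold Tournament.W
  split <;> simp

theorem Tournament.W_nonneg (T : Tournament ι) (i j : ι) : 0 ≤ T.W i j := by
  rcases T.W_cases i j with h | h <;> omega

theorem Tournament.W_le_one (T : Tournament ι) (i j : ι) : T.W i j ≤ 1 := by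
  rcases T.W_cases i j with h | h <;> omega

theorem Tournament.W_self (T : Tournament ι) (i : ι) : T.W i i = 0 := by
  simp [Tournament.W]

theorem Tournament.W_add (T : Tournament ι) (i j : ι) : T.W i j + T.W j i ≤ 1 := by
  by_cases h : j = i
  · subst h; simp [T.W_self]
  · have h' : i ≠ j := fun e => h e.symm
    unfold Tournament.W
    have hs := T.res_swap i j h'
    cases hr : T.res i j <;> rw [hr] at hs <;> simp [Res.swap] at hs <;> simp [hs, h, h']

theorem Tournament.wins_add (T : Tournament ι) (i : ι) :
    T.wins i + T.draws i + T.losses i = Fintype.card ι - 1 := by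
  have h : Fintype.card ι - 1 = (Finset.univ.filter fun j => j ≠ i).card := by
    rw [Finset.filter_ne', Finset.card_erase_of_mem (Finset.mem_univ i), Finset.card_univ]
  rw [h]
  unfold Tournament.wins Tournament.draws Tournament.losses
  simp only [Finset.card_filter]
  rw [← Finset.sum_add_distrib, ← Finset.sum_add_distrib]
  refine Finset.sum_congr rfl fun j _ => ?_
  by_cases hj : j = i
  · simp [hj]
  · cases h : T.res i j <;> simp [hj]

end Pool.Agent.Work.MP_1a5986_lc
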