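import Pool.Agent.Work.MP_1a5986_lc.Defs

namespace Pool.Agent.Work.MP_1a5986_lc

open Finset

variable {U V : ℕ}

theorem diag_bounds (S : Fin V → Fin 3 → Fin U) (v : Fin V) (j : Fin 6) :
    12 * U * (v + 1) ≤ diag S v j ∧ diag S v j < 12 * U * (v + 1) + 6 * U := by
  have h0 := (S v 0).2
  have h1 := (S v 1).2
  have h2 := (S v 2).2
  fin_cases j <;> simp only [diag] <;> omega

theorem diag_bound3 (S : Fin V → Fin 3 → Fin U) (v : Fin V) (j : Fin 6) (hj : j < 3) :
    diag S v j < 12 * U * (v + 1) + 4 * U := by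
  have h0 := (S v 0).2
  have h1 := (S v 1).2
  have h2 := (S v 2).2
  fin_cases j <;> simp [diag] at hj ⊢ <;> omega

theorem block_lt {U v w : ℕ} (h : v < w) : 12 * U * (v + 1) + 12 * U ≤ 12 * U * (w + 1) := by
  have : 12 * U * (v + 2) ≤ 12 * U * (w + 1) := Nat.mul_le_mul_left _ (by omega)
  calc 12 * U * (v + 1) + 12 * U = 12 * U * (v + 2) := by ring
    _ ≤ _ := this

theorem diag_inj (S : Fin V → Fin 3 → Fin U) (hS : ∀ v, Function.Injective (S v))
    {v w : Fin V} {i j : Fin 6} (h : diag S v i = diag S w j) : v = w ∧ i = j := by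
  have hU : 0 < U := Nat.pos_of_ne_zero (by rintro rfl; exact (S v 0).elim0)
  have b1 := diag_bounds S v i
  have b2 := diag_bounds S w j
  have hvw : v = w := by
    rcases lt_trichotomy v w with hl | hl | hl
    · have := block_lt (U := U) (v := v) (w := w) hl
      omega
    · exact hl
    · have := block_lt (U := U) (v := w) (w := v) hl
      omega
  refine ⟨hvw, ?_⟩
  subst hvw
  have h0 := (S v 0).2
  have h1 := (S v 1).2
  have h2 := (S v 2).2
  have n01 : (S v 0 : ℕ) ≠ S v 1 := fun e => by
    have := hS v (Fin.ext e); simp at this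
  have n02 : (S v 0 : ℕ) ≠ S v 2 := fun e => by
    have := hS v (Fin.ext e); simp at this
  have n12 : (S v 1 : ℕ) ≠ S v 2 := fun e => by
    have := hS v (Fin.ext e); simp at this
  fin_cases i <;> fin_cases j <;> simp only [diag] at h <;> first | rfl | (exfalso; omega)

theorem col_inj (S : Fin V → Fin 3 → Fin U) (hS : ∀ v, Function.Injective (S v)) :
    Function.Injective (col S) := by
  have key : ∀ (v w : Fin V) (i j : Fin 6), i < 3 → ¬ j < 3 →
      diag S v i ≠ diag S w j - 6 * U := by
    intro v w i j hi hj h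
    have hU : 0 < U := Nat.pos_of_ne_zero (by rintro rfl; exact (S v 0).elim0)
    have b1 := diag_bounds S v i
    have b1' := diag_bound3 S v i hi
    have b2 := diag_bounds S w j
    have b0 : 12 * U ≤ 12 * U * ((w : ℕ) + 1) := Nat.le_mul_of_pos_right _ (by omega)
    rcases lt_or_ge v w with hl | hl
    · have := block_lt (U := U) (v := v) (w := w) hl
      omega
    · have : 12 * U * ((w : ℕ) + 1) ≤ 12 * U * ((v : ℕ) + 1) :=
        Nat.mul_le_mul_left _ (by have : (w : ℕ) ≤ v := hl; omega)
      omega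
  rintro ⟨v, i⟩ ⟨w, j⟩ h
  unfold col at h
  simp only at h
  by_cases hi : i < 3 <;> by_cases hj : j < 3
  · rw [if_pos hi, if_pos hj] at h
    obtain ⟨h1, h2⟩ := diag_inj S hS h
    rw [h1, h2]
  · rw [if_pos hi, if_neg hj] at h
    exact absurd h (key v w i j hi hj)
  · rw [if_neg hi, if_pos hj] at h
    exact absurd h.symm (key w v j i hj hi)
  · rw [if_neg hi, if_neg hj] at h
    have b1 := diag_bounds S v i
    have b2 := diag_bounds S w j
    have b0 : 12 * U ≤ 12 * U * ((w : ℕ) + 1) := Nat.le_mul_of_pos_right _ (by omega)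
    have b0' : 12 * U ≤ 12 * U * ((v : ℕ) + 1) := Nat.le_mul_of_pos_right _ (by omega)
    have : diag S v i = diag S w j := by omega
    obtain ⟨h1, h2⟩ := diag_inj S hS this
    rw [h1, h2]

theorem cell_false (S : Fin V → Fin 3 → Fin U) (v : Fin V) (j : Fin 6) :
    col S (v, j) + row S (v, j) false = diag S v j := by
  have b1 := diag_bounds S v j
  have b0 : 12 * U ≤ 12 * U * ((v : ℕ) + 1) := Nat.le_mul_of_pos_right _ (by omega)
  unfold col row
  by_cases hj : j < 3
  · simp [hj]
  · simp only [hj, if_false]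
    omega

theorem cell_true (S : Fin V → Fin 3 → Fin U) (v : Fin V) (j : Fin 6) :
    col S (v, j) + row S (v, j) true = diag S v (j + 1) := by
  have h0 := (S v 0).2
  have h1 := (S v 1).2
  have h2 := (S v 2).2
  have b0 : 12 * U ≤ 12 * U * ((v : ℕ) + 1) := Nat.le_mul_of_pos_right _ (by omega)
  have e0 : (0 : Fin 6) < 3 := by decide
  have e1 : (1 : Fin 6) < 3 := by decide
  have e2 : (2 : Fin 6) < 3 := by decide
  have e3 : ¬ (3 : Fin 6) < 3 := by decide
  have e4 : ¬ (4 : Fin 6) < 3 := by decide
  have e5 : ¬ (5 : Fin 6) < 3 := by decide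
  have hc : ∀ i : Fin 6, i = 0 ∨ i = 1 ∨ i = 2 ∨ i = 3 ∨ i = 4 ∨ i = 5 := by decide
  rcases hc j with rfl | rfl | rfl | rfl | rfl | rfl
  · show col S (v, 0) + row S (v, 0) true = diag S v 1
    simp only [col, row, diag, e0, if_true]
  · show col S (v, 1) + row S (v, 1) true = diag S v 2
    simp only [col, row, diag, e1, if_true]
  · show col S (v, 2) + row S (v, 2) true = diag S v 3
    simp only [col, row, diag, e2, if_true]
  · show col S (v, 3) + row S (v, 3) true = diag S v 4
    simp only [col, row, diag, e3, if_false]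
    omega
  · show col S (v, 4) + row S (v, 4) true = diag S v 5
    simp only [col, row, diag, e4, if_false]
    omega
  · show col S (v, 5) + row S (v, 5) true = diag S v 0
    simp only [col, row, diag, e5, if_false]
    omega

theorem row_lt (S : Fin V → Fin 3 → Fin U) (p : Fin V × Fin 6) (e : Bool) :
    row S p e < 6 * U + 1 := by
  obtain ⟨v, j⟩ := p
  have h0 := (S v 0).2
  have h1 := (S v 1).2
  have h2 := (S v 2).2
  cases e
  · simp only [row]
    split <;> omega
  · simp only [row]
    have hc : ∀ i : Fin 6, i = 0 ∨ i = 1 ∨ i = 2 ∨ i = 3 ∨ i = 4 ∨ i = 5 := by decide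
    rcases hc j with rfl | rfl | rfl | rfl | rfl | rfl <;> simp only <;> omega

theorem cell_lt (S : Fin V → Fin 3 → Fin U) (p : Fin V × Fin 6) (e : Bool) :
    col S p + row S p e < 12 * U * V + 6 * U := by
  obtain ⟨v, j⟩ := p
  have hv : 12 * U * ((v : ℕ) + 1) ≤ 12 * U * V := Nat.mul_le_mul_left _ (by have := v.2; omega)
  cases e
  · rw [cell_false]
    have := diag_bounds S v j
    omega
  · rw [cell_true]
    have := diag_bounds S v (j + 1)
    omega

end Pool.Agent.Work.MP_1a5986_lc
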