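import Pool.Agent.Work.MP_1a5986_lc.CoverA

namespace Pool.Agent.Work.MP_1a5986_lc

open Finset

variable {U V : ℕ}

theorem wsum {α : Type} [Fintype α] (g : α → ℕ) (n : ℕ) (hg : ∀ a, g a < n) (f : ℕ → ℕ) :
    ∑ h ∈ range n, f h * (Finset.univ.filter fun a => g a = h).card = ∑ a, f (g a) := by
  simp only [Finset.card_filter, Finset.mul_sum]
  rw [Finset.sum_comm]
  refine Finset.sum_congr rfl fun a _ => ?_
  simp [hg a]

theorem rowT_wsum (U V : ℕ) (f : ℕ → ℕ) :
    ∑ h ∈ range (6 * U + 1), f h * rowT U V h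
      = (∑ u : Fin U, f (U + u)) + (∑ u : Fin U, f (5 * U - u))
        + f 0 * (3 * V - U) + f (6 * U) * (3 * V - U) := by
  unfold rowT
  simp only [mul_add, Finset.sum_add_distrib]
  rw [wsum (fun u : Fin U => U + (u : ℕ)) _ (fun u => by have := u.2; omega),
    wsum (fun u : Fin U => 5 * U - (u : ℕ)) _ (fun u => by have := u.2; omega)]
  congr 1
  · congr 1
    simp
  · simp

theorem rowT_sum (hUV : U ≤ 3 * V) :
    ∑ h ∈ range (6 * U + 1), rowT U V h = Fintype.card (Fin V × Fin 6) := by
  have := rowT_wsum U V (fun _ => 1)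
  simp only [one_mul, Finset.sum_const, Finset.card_univ, Fintype.card_fin, smul_eq_mul,
    mul_one] at this
  rw [this, Fintype.card_prod, Fintype.card_fin, Fintype.card_fin]
  omega

theorem rowT_hsum (hUV : U ≤ 3 * V) :
    ∑ h ∈ range (6 * U + 1), h * rowT U V h = 18 * (U * V) := by
  have := rowT_wsum U V (fun h => h)
  rw [this, ← Finset.sum_add_distrib]
  have h1 : ∀ u : Fin U, U + (u : ℕ) + (5 * U - u) = 6 * U := by
    intro u
    have := u.2
    omega
  simp only [h1, Finset.sum_const, Finset.card_univ, Fintype.card_fin, smul_eq_mul]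
  obtain ⟨k, hk⟩ := Nat.exists_eq_add_of_le hUV
  have h2 : 3 * V - U = k := by omega
  rw [h2]
  have h3 : 18 * (U * V) = 6 * U * (3 * V) := by ring
  rw [h3, hk]
  ring

theorem diagT_sum (S : Fin V → Fin 3 → Fin U) :
    ∑ b ∈ range (12 * U * V + 6 * U), b * diagT S b = ∑ p : Fin V × Fin 6, diag S p.1 p.2 := by
  unfold diagT
  refine wsum (fun p : Fin V × Fin 6 => diag S p.1 p.2) _ (fun p => ?_) (fun b => b)
  have := cell_lt S p false
  rw [cell_false] at this
  exact this

theorem shift_sum (f : Fin 6 → ℕ) : ∑ j, f (j + 1) = ∑ j, f j :=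
  Equiv.sum_comp (Equiv.addRight (1 : Fin 6)) f

theorem cover_cons (S : Fin V → Fin 3 → Fin U) (hUV : U ≤ 3 * V) :
    (∑ p, col S p) + (∑ h ∈ range (6 * U + 1), h * rowT U V h)
      + (∑ b ∈ range (12 * U * V + 6 * U), b * diagT S b)
      = ∑ x : (Fin V × Fin 6) × Bool, (col S x.1 + row S x.1 x.2) := by
  rw [rowT_hsum hUV, diagT_sum]
  have h1 : ∑ x : (Fin V × Fin 6) × Bool, (col S x.1 + row S x.1 x.2)
      = (∑ p : Fin V × Fin 6, diag S p.1 p.2) + ∑ p : Fin V × Fin 6, diag S p.1 p.2 := by
    rw [Fintype.sum_prod_type]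
    simp only [Fintype.sum_bool]
    rw [Finset.sum_add_distrib]
    have e1 : ∑ p : Fin V × Fin 6, (col S p + row S p true) = ∑ p : Fin V × Fin 6, diag S p.1 p.2 := by
      rw [Fintype.sum_prod_type, Fintype.sum_prod_type]
      refine Finset.sum_congr rfl fun v _ => ?_
      simp only [cell_true]
      exact shift_sum (diag S v)
    have e2 : ∑ p : Fin V × Fin 6, (col S p + row S p false)
        = ∑ p : Fin V × Fin 6, diag S p.1 p.2 :=
      Finset.sum_congr rfl fun p _ => cell_false S p.1 p.2
    rw [e1, e2]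
  have h2 : (∑ p, col S p) + 18 * (U * V) = ∑ p : Fin V × Fin 6, diag S p.1 p.2 := by
    have e3 : ∑ p : Fin V × Fin 6, row S p false = 18 * (U * V) := by
      rw [Fintype.sum_prod_type]
      have : ∀ v : Fin V, ∑ j, row S (v, j) false = 18 * U := by
        intro v
        rw [Fin.sum_univ_six]
        simp only [row]
        have e0 : (0 : Fin 6) < 3 := by decide
        have e1 : (1 : Fin 6) < 3 := by decide
        have e2 : (2 : Fin 6) < 3 := by decide
        have e3 : ¬ (3 : Fin 6) < 3 := by decide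
        have e4 : ¬ (4 : Fin 6) < 3 := by decide
        have e5 : ¬ (5 : Fin 6) < 3 := by decide
        simp only [e0, e1, e2, e3, e4, e5, if_true, if_false]
        ring
      simp only [this, Finset.sum_const, Finset.card_univ, Fintype.card_fin, smul_eq_mul]
      ring
    rw [← e3, ← Finset.sum_add_distrib]
    exact Finset.sum_congr rfl fun p _ => cell_false S p.1 p.2
  rw [h1, h2]

theorem cover_sum (S : Fin V → Fin 3 → Fin U) (hS : ∀ v, Function.Injective (S v))
    (F : Finset (Fin V)) (hF : ∀ u : Fin U, ∃! v, v ∈ F ∧ ∃ s, S v s = u) (f : Fin U → ℕ) :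
    ∑ v ∈ F, ∑ s, f (S v s) = ∑ u, f u := by
  rw [← Finset.sum_product']
  refine Finset.sum_bij (fun x _ => S x.1 x.2) (fun _ _ => Finset.mem_univ _) ?_ ?_
    (fun _ _ => rfl)
  · rintro ⟨v, s⟩ hx ⟨w, t⟩ hy h
    rw [Finset.mem_product] at hx hy
    obtain ⟨v0, -, hu⟩ := hF (S v s)
    have h1 := hu v ⟨hx.1, s, rfl⟩
    have h2 := hu w ⟨hy.1, t, h.symm⟩
    have h3 : v = w := h1.trans h2.symm
    subst h3
    have h4 : s = t := hS v h
    rw [h4]
  · intro u _
    obtain ⟨v, ⟨hv, s, hs⟩, -⟩ := hF u
    exact ⟨(v, s), by simp [hv], hs⟩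

theorem card_filter_split (F : Finset (Fin V)) (g : Fin V → Fin 6 → Bool → ℕ) (h : ℕ) :
    (Finset.univ.filter fun p : Fin V × Fin 6 => g p.1 p.2 (decide (p.1 ∈ F)) = h).card
      = (∑ v ∈ F, ∑ j, if g v j true = h then 1 else 0)
        + ∑ v ∈ Fᶜ, ∑ j, if g v j false = h then 1 else 0 := by
  rw [Finset.card_filter, Fintype.sum_prod_type, ← Finset.sum_add_sum_compl F]
  congr 1
  · refine Finset.sum_congr rfl fun v hv => Finset.sum_congr rfl fun j _ => ?_
    simp [hv]
  · refine Finset.sum_congr rfl fun v hv => Finset.sum_congr rfl fun j _ => ?_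
    have : v ∉ F := Finset.mem_compl.1 hv
    simp [this]

theorem rows_ok (S : Fin V → Fin 3 → Fin U) (hS : ∀ v, Function.Injective (S v))
    (F : Finset (Fin V)) (hF : ∀ u : Fin U, ∃! v, v ∈ F ∧ ∃ s, S v s = u) (h : ℕ) :
    (Finset.univ.filter fun p : Fin V × Fin 6 => row S p (decide (p.1 ∈ F)) = h).card
      = rowT U V h := by
  have h1 := card_filter_split F (fun v j e => row S (v, j) e) h
  have h1' : (Finset.univ.filter fun p : Fin V × Fin 6 => row S p (decide (p.1 ∈ F)) = h).card
      = (∑ v ∈ F, ∑ j, if row S (v, j) true = h then 1 else 0)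
        + ∑ v ∈ Fᶜ, ∑ j, if row S (v, j) false = h then 1 else 0 := h1
  rw [h1']
  have hc : 3 * F.card = U := by
    have := cover_sum S hS F hF (fun _ => 1)
    simp at this
    omega
  have hcc : F.card + Fᶜ.card = V := by
    have := Finset.card_add_card_compl F
    simpa using this
  have h2 : ∀ v, (∑ j, if row S (v, j) true = h then 1 else 0)
      = ∑ s, ((if U + (S v s : ℕ) = h then 1 else 0)
          + if 5 * U - (S v s : ℕ) = h then 1 else 0) := by
    intro v
    rw [Fin.sum_univ_six, Fin.sum_univ_three]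
    have r0 : row S (v, 0) true = U + S v 0 := rfl
    have r1 : row S (v, 1) true = U + S v 1 := rfl
    have r2 : row S (v, 2) true = U + S v 2 := rfl
    have r3 : row S (v, 3) true = 5 * U - S v 0 := rfl
    have r4 : row S (v, 4) true = 5 * U - S v 1 := rfl
    have r5 : row S (v, 5) true = 5 * U - S v 2 := rfl
    rw [r0, r1, r2, r3, r4, r5]
    omega
  have h3 : ∀ v, (∑ j, if row S (v, j) false = h then 1 else 0)
      = 3 * (if h = 0 then 1 else 0) + 3 * (if h = 6 * U then 1 else 0) := by
    intro v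
    rw [Fin.sum_univ_six]
    simp only [row]
    have e0 : (0 : Fin 6) < 3 := by decide
    have e1 : (1 : Fin 6) < 3 := by decide
    have e2 : (2 : Fin 6) < 3 := by decide
    have e3 : ¬ (3 : Fin 6) < 3 := by decide
    have e4 : ¬ (4 : Fin 6) < 3 := by decide
    have e5 : ¬ (5 : Fin 6) < 3 := by decide
    simp only [e0, e1, e2, e3, e4, e5, if_true, if_false, eq_comm (a := h)]
    ring
  simp only [h2, h3]
  rw [cover_sum S hS F hF (fun u => (if U + (u : ℕ) = h then 1 else 0)
          + if 5 * U - (u : ℕ) = h then 1 else 0)]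
  unfold rowT
  rw [Finset.card_filter, Finset.card_filter, Finset.sum_add_distrib, Finset.sum_const,
    smul_eq_mul]
  have h4 : 3 * V - U = 3 * Fᶜ.card := by omega
  rw [h4]
  split_ifs <;> ring

theorem diags_ok (S : Fin V → Fin 3 → Fin U) (F : Finset (Fin V)) (b : ℕ) :
    (Finset.univ.filter fun p : Fin V × Fin 6 =>
      col S p + row S p (!decide (p.1 ∈ F)) = b).card = diagT S b := by
  have h1 := card_filter_split F (fun v j e => col S (v, j) + row S (v, j) (!e)) b
  have h1' : (Finset.univ.filter fun p : Fin V × Fin 6 =>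
      col S p + row S p (!decide (p.1 ∈ F)) = b).card
      = (∑ v ∈ F, ∑ j, if col S (v, j) + row S (v, j) (!true) = b then 1 else 0)
        + ∑ v ∈ Fᶜ, ∑ j, if col S (v, j) + row S (v, j) (!false) = b then 1 else 0 := h1
  rw [h1']
  simp only [Bool.not_true, Bool.not_false, cell_false, cell_true]
  have h2 : ∀ v, (∑ j : Fin 6, if diag S v (j + 1) = b then 1 else 0)
      = ∑ j : Fin 6, if diag S v j = b then 1 else 0 := fun v =>
    shift_sum (fun j => if diag S v j = b then 1 else 0)
  simp only [h2]
  rw [Finset.sum_add_sum_compl F]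
  unfold diagT
  rw [Finset.card_filter, Fintype.sum_prod_type]

/-- The cover gives a selection. -/
theorem cover_fwd (S : Fin V → Fin 3 → Fin U) (hS : ∀ v, Function.Injective (S v))
    (h : HasExactCover S) :
    ∃ sel : Fin V × Fin 6 → Bool,
      (∀ h < 6 * U + 1, (Finset.univ.filter fun p => row S p (sel p) = h).card = rowT U V h) ∧
      (∀ b < 12 * U * V + 6 * U,
        (Finset.univ.filter fun p => col S p + row S p (!sel p) = b).card = diagT S b) := by
  obtain ⟨F, hF⟩ := h
  exact ⟨fun p => decide (p.1 ∈ F), fun h _ => rows_ok S hS F hF h, fun b _ => diags_ok S F b⟩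

/-- A selection gives a cover. -/
theorem cover_back (S : Fin V → Fin 3 → Fin U) (hS : ∀ v, Function.Injective (S v))
    (sel : Fin V × Fin 6 → Bool)
    (hr : ∀ h < 6 * U + 1, (Finset.univ.filter fun p => row S p (sel p) = h).card = rowT U V h)
    (hd : ∀ b < 12 * U * V + 6 * U,
        (Finset.univ.filter fun p => col S p + row S p (!sel p) = b).card = diagT S b) :
    HasExactCover S := by
  -- consecutive choices agree
  have hstep : ∀ v j, sel (v, j + 1) = sel (v, j) := by
    intro v j
    have hlt : diag S v (j + 1) < 12 * U * V + 6 * U := by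
      have := cell_lt S (v, j + 1) false
      rwa [cell_false] at this
    have h1 := hd _ hlt
    have h2 : diagT S (diag S v (j + 1)) = 1 := by
      unfold diagT
      rw [Finset.card_eq_one]
      refine ⟨(v, j + 1), ?_⟩
      ext ⟨w, i⟩
      simp only [Finset.mem_filter, Finset.mem_univ, true_and, Finset.mem_singleton,
        Prod.mk.injEq]
      constructor
      · intro h
        exact diag_inj S hS h
      · rintro ⟨rfl, rfl⟩
        rfl
    rw [h2, Finset.card_eq_one] at h1
    obtain ⟨q, hq⟩ := h1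
    have hmem : ∀ p, (col S p + row S p (!sel p) = diag S v (j + 1)) ↔ p = q := by
      intro p
      have := congrArg (fun s => p ∈ s) hq
      simpa using this
    cases ha : sel (v, j + 1) <;> cases hb : sel (v, j)
    · rfl
    · -- nothing is on the diagonal
      exfalso
      have hq' := (hmem q).2 rfl
      obtain ⟨w, i⟩ := q
      cases hc : sel (w, i)
      · rw [hc, Bool.not_false, cell_true] at hq'
        obtain ⟨e1, e2⟩ := diag_inj S hS hq'
        have e3 : i = j := add_right_cancel e2
        rw [e1, e3, hb] at hc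
        exact Bool.noConfusion hc
      · rw [hc, Bool.not_true, cell_false] at hq'
        obtain ⟨e1, e2⟩ := diag_inj S hS hq'
        rw [e1, e2, ha] at hc
        exact Bool.noConfusion hc
    · -- two cells are on the diagonal
      exfalso
      have k1 : (v, j + 1) = q := (hmem _).1 (by rw [ha, Bool.not_true, cell_false])
      have k2 : (v, j) = q := (hmem _).1 (by rw [hb, Bool.not_false, cell_true])
      have := k1.trans k2.symm
      simp at this
    · rfl
  have hconst : ∀ v j, sel (v, j) = sel (v, 0) := by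
    intro v j
    have s0 := hstep v 0
    have s1 := hstep v 1
    have s2 := hstep v 2
    have s3 := hstep v 3
    have s4 := hstep v 4
    have e1 : (0 : Fin 6) + 1 = 1 := rfl
    have e2 : (1 : Fin 6) + 1 = 2 := rfl
    have e3 : (2 : Fin 6) + 1 = 3 := rfl
    have e4 : (3 : Fin 6) + 1 = 4 := rfl
    have e5 : (4 : Fin 6) + 1 = 5 := rfl
    rw [e1] at s0
    rw [e2] at s1
    rw [e3] at s2
    rw [e4] at s3
    rw [e5] at s4
    have hc : ∀ i : Fin 6, i = 0 ∨ i = 1 ∨ i = 2 ∨ i = 3 ∨ i = 4 ∨ i = 5 := by decide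
    rcases hc j with rfl | rfl | rfl | rfl | rfl | rfl
    · rfl
    · exact s0
    · exact s1.trans s0
    · exact s2.trans (s1.trans s0)
    · exact s3.trans (s2.trans (s1.trans s0))
    · exact s4.trans (s3.trans (s2.trans (s1.trans s0)))
  refine ⟨Finset.univ.filter fun v => sel (v, 0) = true, fun u => ?_⟩
  have hu := u.2
  have hUp : 0 < U := by omega
  -- the row of u
  have ht : rowT U V (U + u) = 1 := by
    unfold rowT
    have e1 : (Finset.univ.filter fun u' : Fin U => U + (u' : ℕ) = U + u) = {u} := by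
      ext u'
      simp only [Finset.mem_filter, Finset.mem_univ, true_and, Finset.mem_singleton]
      constructor
      · intro h; exact Fin.ext (by omega)
      · rintro rfl; rfl
    have e2 : (Finset.univ.filter fun u' : Fin U => 5 * U - (u' : ℕ) = U + u) = ∅ := by
      ext u'
      have := u'.2
      simp only [Finset.mem_filter, Finset.mem_univ, true_and, Finset.notMem_empty, iff_false]
      omega
    rw [e1, e2, if_neg (by omega), if_neg (by omega)]
    simp
  have h1 := hr (U + u) (by omega)
  rw [ht, Finset.card_eq_one] at h1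
  obtain ⟨q, hq⟩ := h1
  have hmem : ∀ p, (row S p (sel p) = U + u) ↔ p = q := by
    intro p
    have := congrArg (fun s => p ∈ s) hq
    simpa using this
  -- a set containing u and chosen gives a cell
  have hcell : ∀ v s, sel (v, 0) = true → S v s = u →
      ∃ j : Fin 6, row S (v, j) (sel (v, j)) = U + u := by
    intro v s hv hs
    have hcs : ∀ i : Fin 3, i = 0 ∨ i = 1 ∨ i = 2 := by decide
    rcases hcs s with rfl | rfl | rfl
    · exact ⟨0, by rw [hconst, hv]; simp only [row]; rw [hs]⟩
    · exact ⟨1, by rw [hconst, hv]; simp only [row]; rw [hs]⟩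
    · exact ⟨2, by rw [hconst, hv]; simp only [row]; rw [hs]⟩
  have hq' := (hmem q).2 rfl
  obtain ⟨v, j⟩ := q
  rw [hconst] at hq'
  have g0 := (S v 0).2
  have g1 := (S v 1).2
  have g2 := (S v 2).2
  have hsel : sel (v, 0) = true := by
    by_contra hne
    have : sel (v, 0) = false := by simpa using hne
    rw [this] at hq'
    simp only [row] at hq'
    split at hq' <;> omega
  rw [hsel] at hq'
  have hex : ∃ s, S v s = u := by
    have hc : ∀ i : Fin 6, i = 0 ∨ i = 1 ∨ i = 2 ∨ i = 3 ∨ i = 4 ∨ i = 5 := by decide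
    rcases hc j with rfl | rfl | rfl | rfl | rfl | rfl <;> simp only [row] at hq'
    · exact ⟨0, Fin.ext (by omega)⟩
    · exact ⟨1, Fin.ext (by omega)⟩
    · exact ⟨2, Fin.ext (by omega)⟩
    · exfalso; omega
    · exfalso; omega
    · exfalso; omega
  refine ⟨v, ⟨by simp [hsel], hex⟩, ?_⟩
  rintro w ⟨hw, s, hs⟩
  have hw' : sel (w, 0) = true := by simpa using hw
  obtain ⟨i, hi⟩ := hcell w s hw' hs
  have := (hmem _).1 hi
  exact congrArg Prod.fst this

end Pool.Agent.Work.MP_1a5986_lc
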