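import Mathlib

namespace Pool.Agent.Work.MP_1a5986_lc

/-! ### Soccer tournaments -/

/-- The result of a match, seen from the first team. -/
inductive Res
  | win
  | draw
  | loss
  deriving DecidableEq

/-- The same result seen from the other team. -/
def Res.swap : Res → Res
  | .win => .loss
  | .draw => .draw
  | .loss => .win

/-- A soccer tournament on the set of teams `ι`: `res i j` is the result of the match between the
teams `i ≠ j`, seen from `i` (the values `res i i` are never used). -/
structure Tournament (ι : Type) where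
  res : ι → ι → Res
  res_swap : ∀ i j, i ≠ j → res j i = (res i j).swap

section

variable {ι : Type} [Fintype ι] [DecidableEq ι]

/-- The number of matches won by the team `i`. -/
def Tournament.wins (T : Tournament ι) (i : ι) : ℕ :=
  (Finset.univ.filter fun j => j ≠ i ∧ T.res i j = Res.win).card

/-- The number of drawn matches of the team `i`. -/
def Tournament.draws (T : Tournament ι) (i : ι) : ℕ :=
  (Finset.univ.filter fun j => j ≠ i ∧ T.res i j = Res.draw).card

/-- The number of matches lost by the team `i`. -/
def Tournament.losses (T : Tournament ι) (i : ι) : ℕ :=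
  (Finset.univ.filter fun j => j ≠ i ∧ T.res i j = Res.loss).card

/-- The score of the team `i` if a win is worth `a` points and a draw one point. -/
def Tournament.score (T : Tournament ι) (a : ℕ) (i : ι) : ℕ :=
  a * T.wins i + T.draws i

end

/-! ### Exact covers by sets of size three -/

/-- `S v` lists the elements of the `v`-th set; some of the sets cover every element of
`Fin U` exactly once. -/
def HasExactCover {U V : ℕ} (S : Fin V → Fin 3 → Fin U) : Prop :=
  ∃ F : Finset (Fin V), ∀ u : Fin U, ∃! v, v ∈ F ∧ ∃ s, S v s = u

/-! ### Tables from cells in a grid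

`P` is a finite set of columns with labels `A p`; every column has two cells, in the rows
`C p false` and `C p true`; the cell in the row `c` of the column `p` lies on the diagonal
`A p + c`. -/

section

variable {P : Type} [Fintype P]

/-- The number of columns with a smaller label. -/
def below (A : P → ℕ) (p : P) : ℕ := (Finset.univ.filter fun q => A q < A p).card

/-- The teams: one for every cell, one for each of `R` diagonals, one for each of `H` rows. -/
abbrev Teams (P : Type) (R H : ℕ) : Type := (P × Bool) ⊕ (Fin R ⊕ Fin H)

/-- The prescribed numbers of wins. -/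
def tabW {R H : ℕ} (A : P → ℕ) (C : P → Bool → ℕ) (ρ : ℕ → ℕ) : Teams P R H → ℕ
  | .inl x => 2 * below A x.1 + (A x.1 + C x.1 x.2) + 1
  | .inr (.inl _) => 0
  | .inr (.inr h) => (Finset.univ.filter fun x : P × Bool => (h : ℕ) < C x.1 x.2).card + ρ h

/-- The prescribed numbers of losses. -/
def tabL {R H : ℕ} (A : P → ℕ) (C : P → Bool → ℕ) (δ : ℕ → ℕ) : Teams P R H → ℕ
  | .inl x => (2 * Fintype.card P - 1 - 2 * below A x.1) + C x.1 x.2
  | .inr (.inl b) =>
      (Finset.univ.filter fun x : P × Bool => (b : ℕ) < A x.1 + C x.1 x.2).card + δ b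
  | .inr (.inr _) => 0

end

/-! ### The table of a family of sets of size three -/

section

variable {U V : ℕ}

/-- Diagonal labels. -/
def diag (S : Fin V → Fin 3 → Fin U) (v : Fin V) : Fin 6 → ℕ
  | 0 => 12 * U * (v + 1)
  | 1 => 12 * U * (v + 1) + (U + S v 0)
  | 2 => 12 * U * (v + 1) + (U + S v 0) + (U + S v 1)
  | 3 => 12 * U * (v + 1) + (U + S v 0) + (U + S v 1) + (U + S v 2)
  | 4 => 12 * U * (v + 1) + (U + S v 1) + (U + S v 2)
  | 5 => 12 * U * (v + 1) + (U + S v 2)

/-- Column labels. -/
def col (S : Fin V → Fin 3 → Fin U) (p : Fin V × Fin 6) : ℕ :=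
  if p.2 < 3 then diag S p.1 p.2 else diag S p.1 p.2 - 6 * U

/-- The rows of the two cells of a column. -/
def row (S : Fin V → Fin 3 → Fin U) (p : Fin V × Fin 6) : Bool → ℕ
  | false => if p.2 < 3 then 0 else 6 * U
  | true => match p.2 with
    | 0 => U + S p.1 0
    | 1 => U + S p.1 1
    | 2 => U + S p.1 2
    | 3 => 5 * U - S p.1 0
    | 4 => 5 * U - S p.1 1
    | 5 => 5 * U - S p.1 2

/-- The contribution of the row `h`. -/
def rowT (U V h : ℕ) : ℕ :=
  (Finset.univ.filter fun u : Fin U => U + (u : ℕ) = h).card
    + (Finset.univ.filter fun u : Fin U => 5 * U - (u : ℕ) = h).card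
    + (if h = 0 then 3 * V - U else 0) + (if h = 6 * U then 3 * V - U else 0)

/-- The contribution of the diagonal `b`. -/
def diagT (S : Fin V → Fin 3 → Fin U) (b : ℕ) : ℕ :=
  (Finset.univ.filter fun p : Fin V × Fin 6 => diag S p.1 p.2 = b).card

/-- The teams of the table. -/
abbrev Cup (U V : ℕ) : Type := Teams (Fin V × Fin 6) (12 * U * V + 6 * U) (6 * U + 1)

/-- The numbers of wins in the table. -/
def cupW (S : Fin V → Fin 3 → Fin U) : Cup U V → ℕ := tabW (col S) (row S) (rowT U V)

/-- The numbers of losses in the table. -/
def cupL (S : Fin V → Fin 3 → Fin U) : Cup U V → ℕ := tabL (col S) (row S) (diagT S)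

/-- The numbers of draws in the table. -/
def cupD (S : Fin V → Fin 3 → Fin U) (i : Cup U V) : ℕ :=
  Fintype.card (Cup U V) - 1 - cupW S i - cupL S i

end

/-! ### Added strong teams -/

/-- The scores `s`, with `p` added teams: the added team `r` wins against the teams of `ι` and
against the added teams `0, …, r - 1`, for `a` points each. -/
def padScore {ι : Type} [Fintype ι] (a : ℕ) (s : ι → ℕ) (p : ℕ) : ι ⊕ Fin p → ℕ
  | .inl i => s i
  | .inr r => a * (Fintype.card ι + r)

end Pool.Agent.Work.MP_1a5986_lc
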