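import Pool.Agent.Work.MP_1a5986_lc.Basic

namespace Pool.Agent.Work.MP_1a5986_lc

open Finset

set_option linter.unusedSectionVars false

variable {ι : Type} [Fintype ι] [DecidableEq ι]

/-- Integer indicator of a draw. -/
def Tournament.Dr (T : Tournament ι) (i j : ι) : ℤ :=
  if j ≠ i ∧ T.res i j = Res.draw then 1 else 0

theorem Tournament.draws_eq (T : Tournament ι) (i : ι) : (T.draws i : ℤ) = ∑ j, T.Dr i j := by
  unfold Tournament.draws Tournament.Dr
  rw [Finset.card_filter]
  push_cast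
  rfl

theorem Tournament.Dr_nonneg (T : Tournament ι) (i j : ι) : 0 ≤ T.Dr i j := by
  unfold Tournament.Dr
  split <;> simp

theorem Tournament.Dr_symm (T : Tournament ι) (i j : ι) : T.Dr i j = T.Dr j i := by
  by_cases h : j = i
  · rw [h]
  · have h' : i ≠ j := fun e => h e.symm
    have hd := T.draw_iff h
    unfold Tournament.Dr
    by_cases hw : T.res i j = Res.draw
    · simp [h, h', hw, hd.1 hw]
    · have hn : ¬ T.res j i = Res.draw := fun e => hw (hd.2 e)
      simp [hw, hn]

theorem Tournament.Dr_self (T : Tournament ι) (i : ι) : T.Dr i i = 0 := by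
  simp [Tournament.Dr]

theorem Tournament.W_add_Dr (T : Tournament ι) (i j : ι) : T.W i j + T.W j i + T.Dr i j ≤ 1 := by
  by_cases h : j = i
  · subst h; simp [T.W_self, T.Dr_self]
  · have h' : i ≠ j := fun e => h e.symm
    unfold Tournament.W Tournament.Dr
    have hs := T.res_swap i j h'
    cases hr : T.res i j <;> rw [hr] at hs <;> simp [Res.swap] at hs <;> simp [hs, h, h']

/-- The tournament without the added teams. -/
def Tournament.core {p : ℕ} (T : Tournament (ι ⊕ Fin p)) : Tournament ι where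
  res i j := T.res (Sum.inl i) (Sum.inl j)
  res_swap i j h := T.res_swap _ _ (fun e => h (Sum.inl.inj e))

theorem Tournament.core_W {p : ℕ} (T : Tournament (ι ⊕ Fin p)) (i j : ι) :
    T.core.W i j = T.W (Sum.inl i) (Sum.inl j) := by
  unfold Tournament.W Tournament.core
  simp

theorem Tournament.core_Dr {p : ℕ} (T : Tournament (ι ⊕ Fin p)) (i j : ι) :
    T.core.Dr i j = T.Dr (Sum.inl i) (Sum.inl j) := by
  unfold Tournament.Dr Tournament.core
  simp

theorem sum_fin_val (p : ℕ) : 2 * ∑ r : Fin p, ((r : ℕ) : ℤ) = (p : ℤ) * p - p := by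
  rw [Fin.sum_univ_eq_sum_range (fun r => (r : ℤ)) p]
  induction p with
  | zero => simp
  | succ n ih =>
    rw [Finset.sum_range_succ, mul_add, ih]
    push_cast
    ring

/-- The added teams win all their matches against the others. -/
theorem pad_forced {p a : ℕ} (ha : 3 ≤ a) (s : ι → ℕ) (T : Tournament (ι ⊕ Fin p))
    (hT : ∀ i, T.score a i = padScore a s p i) (r : Fin p) (i : ι) :
    T.W (Sum.inr r) (Sum.inl i) = 1 := by
  have hsc : ∀ i, (T.score a i : ℤ) = ∑ j, ((a : ℤ) * T.W i j + T.Dr i j) := by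
    intro i
    unfold Tournament.score
    push_cast
    rw [T.wins_eq, T.draws_eq, Finset.mul_sum, Finset.sum_add_distrib]
  have ha' : (3 : ℤ) ≤ a := by exact_mod_cast ha
  have h1 : ∀ (r : Fin p) (i : ι), (a : ℤ) * T.W (Sum.inr r) (Sum.inl i)
      + T.Dr (Sum.inr r) (Sum.inl i) ≤ a := by
    intro r i
    have e1 := T.W_add_Dr (Sum.inr r) (Sum.inl i)
    have e2 := T.W_nonneg (Sum.inl i) (Sum.inr r)
    have e3 := T.Dr_nonneg (Sum.inr r) (Sum.inl i)
    rcases T.W_cases (Sum.inr r) (Sum.inl i) with h | h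
    · rw [h] at e1 ⊢; linarith
    · rw [h] at e1 ⊢; linarith
  have h2 : ∀ r t : Fin p, ((a : ℤ) * T.W (Sum.inr r) (Sum.inr t) + T.Dr (Sum.inr r) (Sum.inr t))
      + ((a : ℤ) * T.W (Sum.inr t) (Sum.inr r) + T.Dr (Sum.inr t) (Sum.inr r))
      ≤ a - if r = t then (a : ℤ) else 0 := by
    intro r t
    by_cases hrt : r = t
    · subst hrt
      simp [T.W_self, T.Dr_self]
    · rw [if_neg hrt, sub_zero, T.Dr_symm (Sum.inr t) (Sum.inr r)]
      have e1 := T.W_add_Dr (Sum.inr r) (Sum.inr t)
      have e3 := T.Dr_nonneg (Sum.inr r) (Sum.inr t)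
      rcases T.W_cases (Sum.inr r) (Sum.inr t) with h | h <;>
      rcases T.W_cases (Sum.inr t) (Sum.inr r) with h' | h' <;>
      rw [h, h'] at e1 ⊢ <;> linarith
  have h3 : 2 * ∑ r : Fin p, (T.score a (Sum.inr r) : ℤ)
      = 2 * (∑ r : Fin p, ∑ i : ι, ((a : ℤ) * T.W (Sum.inr r) (Sum.inl i)
          + T.Dr (Sum.inr r) (Sum.inl i)))
        + ∑ r : Fin p, ∑ t : Fin p,
          (((a : ℤ) * T.W (Sum.inr r) (Sum.inr t) + T.Dr (Sum.inr r) (Sum.inr t))
          + ((a : ℤ) * T.W (Sum.inr t) (Sum.inr r) + T.Dr (Sum.inr t) (Sum.inr r))) := by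
    have e1 : ∑ r : Fin p, (T.score a (Sum.inr r) : ℤ)
        = (∑ r : Fin p, ∑ i : ι, ((a : ℤ) * T.W (Sum.inr r) (Sum.inl i)
          + T.Dr (Sum.inr r) (Sum.inl i)))
        + ∑ r : Fin p, ∑ t : Fin p,
          ((a : ℤ) * T.W (Sum.inr r) (Sum.inr t) + T.Dr (Sum.inr r) (Sum.inr t)) := by
      rw [← Finset.sum_add_distrib]
      refine Finset.sum_congr rfl fun r _ => ?_
      rw [hsc, Fintype.sum_sum_type]
    have e2 : (∑ r : Fin p, ∑ t : Fin p,
          ((a : ℤ) * T.W (Sum.inr t) (Sum.inr r) + T.Dr (Sum.inr t) (Sum.inr r)))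
        = ∑ r : Fin p, ∑ t : Fin p,
          ((a : ℤ) * T.W (Sum.inr r) (Sum.inr t) + T.Dr (Sum.inr r) (Sum.inr t)) := by
      rw [Finset.sum_comm]
    have e3 : (∑ r : Fin p, ∑ t : Fin p,
          (((a : ℤ) * T.W (Sum.inr r) (Sum.inr t) + T.Dr (Sum.inr r) (Sum.inr t))
          + ((a : ℤ) * T.W (Sum.inr t) (Sum.inr r) + T.Dr (Sum.inr t) (Sum.inr r))))
        = (∑ r : Fin p, ∑ t : Fin p,
          ((a : ℤ) * T.W (Sum.inr r) (Sum.inr t) + T.Dr (Sum.inr r) (Sum.inr t)))
          + ∑ r : Fin p, ∑ t : Fin p,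
          ((a : ℤ) * T.W (Sum.inr t) (Sum.inr r) + T.Dr (Sum.inr t) (Sum.inr r)) := by
      simp only [Finset.sum_add_distrib]
    rw [e3, e2, e1]
    ring
  have h4 : 2 * ∑ r : Fin p, (T.score a (Sum.inr r) : ℤ)
      = 2 * (∑ r : Fin p, ∑ i : ι, (a : ℤ))
        + ∑ r : Fin p, ∑ t : Fin p, ((a : ℤ) - if r = t then (a : ℤ) else 0) := by
    have e1 : ∑ r : Fin p, (T.score a (Sum.inr r) : ℤ)
        = ∑ r : Fin p, ((a : ℤ) * (Fintype.card ι : ℤ) + (a : ℤ) * ((r : ℕ) : ℤ)) := by
      refine Finset.sum_congr rfl fun r _ => ?_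
      rw [hT]
      simp only [padScore]
      push_cast
      ring
    rw [e1, Finset.sum_add_distrib, ← Finset.mul_sum, ← Finset.mul_sum]
    have e4 := sum_fin_val p
    simp only [Finset.sum_const, Finset.card_univ, Fintype.card_fin, nsmul_eq_mul,
      Finset.sum_sub_distrib, Finset.sum_ite_eq, Finset.mem_univ, if_true]
    linear_combination (a : ℤ) * e4
  have h5 : ∑ r : Fin p, ∑ i : ι, ((a : ℤ) * T.W (Sum.inr r) (Sum.inl i)
          + T.Dr (Sum.inr r) (Sum.inl i)) = ∑ r : Fin p, ∑ i : ι, (a : ℤ) := by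
    have l1 : ∑ r : Fin p, ∑ i : ι, ((a : ℤ) * T.W (Sum.inr r) (Sum.inl i)
          + T.Dr (Sum.inr r) (Sum.inl i)) ≤ ∑ r : Fin p, ∑ i : ι, (a : ℤ) :=
      Finset.sum_le_sum fun r _ => Finset.sum_le_sum fun i _ => h1 r i
    have l2 : ∑ r : Fin p, ∑ t : Fin p,
          (((a : ℤ) * T.W (Sum.inr r) (Sum.inr t) + T.Dr (Sum.inr r) (Sum.inr t))
          + ((a : ℤ) * T.W (Sum.inr t) (Sum.inr r) + T.Dr (Sum.inr t) (Sum.inr r)))
          ≤ ∑ r : Fin p, ∑ t : Fin p, ((a : ℤ) - if r = t then (a : ℤ) else 0) :=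
      Finset.sum_le_sum fun r _ => Finset.sum_le_sum fun t _ => h2 r t
    linarith
  have h6 := (Finset.sum_eq_sum_iff_of_le
    (fun r _ => Finset.sum_le_sum fun i _ => h1 r i)).1 h5 r (Finset.mem_univ r)
  have h7 := (Finset.sum_eq_sum_iff_of_le (fun i _ => h1 r i)).1 h6 i (Finset.mem_univ i)
  have e1 := T.W_add_Dr (Sum.inr r) (Sum.inl i)
  have e2 := T.W_nonneg (Sum.inl i) (Sum.inr r)
  rcases T.W_cases (Sum.inr r) (Sum.inl i) with h | h
  · rw [h] at e1 h7; linarith
  · exact h

/-- Results of the tournament with added teams. -/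
private def padRes {p : ℕ} (T : Tournament ι) : ι ⊕ Fin p → ι ⊕ Fin p → Res
  | .inl i, .inl j => T.res i j
  | .inl _, .inr _ => Res.loss
  | .inr _, .inl _ => Res.win
  | .inr r, .inr t => if t < r then Res.win else Res.loss

/-- The tournament with added teams. -/
private def padT (p : ℕ) (T : Tournament ι) : Tournament (ι ⊕ Fin p) where
  res := padRes T
  res_swap := by
    rintro (i | r) (j | t) h
    · exact T.res_swap i j (fun e => h (by rw [e]))
    · rfl
    · rfl
    · simp only [padRes]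
      have hne : r ≠ t := fun e => h (by rw [e])
      rcases lt_or_gt_of_ne hne with h1 | h1
      · have h2 : ¬ t < r := not_lt.2 h1.le
        simp [h1, h2, Res.swap]
      · have h2 : ¬ r < t := not_lt.2 h1.le
        simp [h1, h2, Res.swap]

/-- Adding strong teams and a large number of points for a win. -/
theorem pad_iff (a p : ℕ) (ha : 3 ≤ a) (hn : Fintype.card ι ≤ a) (w d : ι → ℕ)
    (hd : ∀ i, d i < Fintype.card ι) :
    (∃ T : Tournament ι, ∀ i, T.wins i = w i ∧ T.draws i = d i) ↔
    ∃ T : Tournament (ι ⊕ Fin p), ∀ i, T.score a i = padScore a (fun i => a * w i + d i) p i := by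
  constructor
  · rintro ⟨T, hT⟩
    refine ⟨padT p T, ?_⟩
    have hW1 : ∀ i j, (padT p T).W (Sum.inl i) (Sum.inl j) = T.W i j := by
      intro i j
      simp [Tournament.W, padT, padRes]
    have hW2 : ∀ i r, (padT p T).W (Sum.inl i) (Sum.inr r) = 0 := by
      intro i j
      simp [Tournament.W, padT, padRes]
    have hD1 : ∀ i j, (padT p T).Dr (Sum.inl i) (Sum.inl j) = T.Dr i j := by
      intro i j
      simp [Tournament.Dr, padT, padRes]
    have hD2 : ∀ i r, (padT p T).Dr (Sum.inl i) (Sum.inr r) = 0 := by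
      intro i j
      simp [Tournament.Dr, padT, padRes]
    have hW3 : ∀ r i, (padT p T).W (Sum.inr r) (Sum.inl i) = 1 := by
      intro i j
      simp [Tournament.W, padT, padRes]
    have hW4 : ∀ r t, (padT p T).W (Sum.inr r) (Sum.inr t) = if (t : ℕ) < (r : ℕ) then 1 else 0 := by
      intro r t
      by_cases h : t < r
      · have h1 : t ≠ r := ne_of_lt h
        simp [Tournament.W, padT, padRes, h, h1]
      · simp [Tournament.W, padT, padRes, h]
    have hD3 : ∀ r i, (padT p T).Dr (Sum.inr r) (Sum.inl i) = 0 := by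
      intro i j
      simp [Tournament.Dr, padT, padRes]
    have hD4 : ∀ r t, (padT p T).Dr (Sum.inr r) (Sum.inr t) = 0 := by
      intro r t
      simp only [Tournament.Dr, padT, padRes]
      split_ifs <;> simp_all
    rintro (i | r)
    · have h1 : ((padT p T).wins (Sum.inl i) : ℤ) = T.wins i := by
        rw [Tournament.wins_eq, Tournament.wins_eq, Fintype.sum_sum_type]
        simp [hW1, hW2]
      have h2 : ((padT p T).draws (Sum.inl i) : ℤ) = T.draws i := by
        rw [Tournament.draws_eq, Tournament.draws_eq, Fintype.sum_sum_type]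
        simp [hD1, hD2]
      have h1' : (padT p T).wins (Sum.inl i) = T.wins i := by exact_mod_cast h1
      have h2' : (padT p T).draws (Sum.inl i) = T.draws i := by exact_mod_cast h2
      unfold Tournament.score
      rw [h1', h2', (hT i).1, (hT i).2]
      rfl
    · have h1 : ((padT p T).wins (Sum.inr r) : ℤ) = ((Fintype.card ι + r : ℕ) : ℤ) := by
        rw [Tournament.wins_eq, Fintype.sum_sum_type]
        simp only [hW3, hW4, Finset.sum_const, Finset.card_univ, nsmul_eq_mul, mul_one]
        have : (∑ t : Fin p, if (t : ℕ) < (r : ℕ) then (1 : ℤ) else 0) = ((r : ℕ) : ℤ) := by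
          rw [Fin.sum_univ_eq_sum_range (fun t => if t < (r : ℕ) then (1 : ℤ) else 0) p,
            ← Finset.sum_filter]
          have h8 : (Finset.range p).filter (fun t => t < (r : ℕ)) = Finset.range r := by
            ext t
            have := r.2
            simp only [Finset.mem_filter, Finset.mem_range]
            omega
          rw [h8]
          simp
        rw [this]
        push_cast
        ring
      have h2 : ((padT p T).draws (Sum.inr r) : ℤ) = ((0 : ℕ) : ℤ) := by
        rw [Tournament.draws_eq, Fintype.sum_sum_type]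
        simp [hD3, hD4]
      have h1' : (padT p T).wins (Sum.inr r) = Fintype.card ι + r := by exact_mod_cast h1
      have h2' : (padT p T).draws (Sum.inr r) = 0 := by exact_mod_cast h2
      unfold Tournament.score
      rw [h1', h2']
      rfl
  · rintro ⟨T, hT⟩
    have hf := pad_forced ha _ T hT
    refine ⟨T.core, fun i => ?_⟩
    have hW2 : ∀ r : Fin p, T.W (Sum.inl i) (Sum.inr r) = 0 := by
      intro r
      have e1 := T.W_add_Dr (Sum.inr r) (Sum.inl i)
      have e2 := T.W_nonneg (Sum.inl i) (Sum.inr r)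
      have e3 := T.Dr_nonneg (Sum.inr r) (Sum.inl i)
      have e4 := hf r i
      linarith
    have hD2 : ∀ r : Fin p, T.Dr (Sum.inl i) (Sum.inr r) = 0 := by
      intro r
      rw [T.Dr_symm]
      have e1 := T.W_add_Dr (Sum.inr r) (Sum.inl i)
      have e2 := T.W_nonneg (Sum.inl i) (Sum.inr r)
      have e3 := T.Dr_nonneg (Sum.inr r) (Sum.inl i)
      have e4 := hf r i
      linarith
    have h1 : (T.wins (Sum.inl i) : ℤ) = T.core.wins i := by
      rw [Tournament.wins_eq, Tournament.wins_eq, Fintype.sum_sum_type]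
      simp [hW2, T.core_W]
    have h2 : (T.draws (Sum.inl i) : ℤ) = T.core.draws i := by
      rw [Tournament.draws_eq, Tournament.draws_eq, Fintype.sum_sum_type]
      simp [hD2, T.core_Dr]
    have h1' : T.wins (Sum.inl i) = T.core.wins i := by exact_mod_cast h1
    have h2' : T.draws (Sum.inl i) = T.core.draws i := by exact_mod_cast h2
    have h3 := hT (Sum.inl i)
    unfold Tournament.score at h3
    rw [h1', h2'] at h3
    simp only [padScore] at h3
    have h4 := T.core.wins_add i
    have h5 := hd i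
    have hd1 : T.core.draws i < a := by omega
    have hd2 : d i < a := by omega
    have ha0 : 0 < a := by omega
    have m1 : (a * T.core.wins i + T.core.draws i) / a = (a * w i + d i) / a := by rw [h3]
    have m2 : (a * T.core.wins i + T.core.draws i) % a = (a * w i + d i) % a := by rw [h3]
    rw [Nat.mul_add_div ha0, Nat.mul_add_div ha0, Nat.div_eq_of_lt hd1, Nat.div_eq_of_lt hd2] at m1
    rw [Nat.mul_add_mod, Nat.mul_add_mod, Nat.mod_eq_of_lt hd1, Nat.mod_eq_of_lt hd2] at m2
    exact ⟨by omega, m2⟩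

end Pool.Agent.Work.MP_1a5986_lc
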