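import Pool.Agent.Work.MP_1a5986_lc.TomoD
import Pool.Agent.Work.MP_1a5986_lc.CoverB
import Pool.Agent.Work.MP_1a5986_lc.Pad

namespace Pool.Agent.Work.MP_1a5986_lc

open Finset

variable {U V : ℕ}

theorem card_cup (U V : ℕ) :
    Fintype.card (Cup U V) = 12 * V + 12 * U * V + 12 * U + 1 := by
  simp only [Fintype.card_sum, Fintype.card_prod, Fintype.card_fin, Fintype.card_bool]
  ring

theorem cup_iff (S : Fin V → Fin 3 → Fin U) (hS : ∀ v, Function.Injective (S v))
    (hUV : U ≤ 3 * V) :
    HasExactCover S ↔
      ∃ T : Tournament (Cup U V), ∀ i, T.wins i = cupW S i ∧ T.losses i = cupL S i := by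
  constructor
  · intro h
    obtain ⟨sel, h1, h2⟩ := cover_fwd S hS h
    obtain ⟨T, hw, hl⟩ := tomo_fwd (col S) (col_inj S hS) (row S) (row_lt S) (cell_lt S)
      (rowT U V) (diagT S) sel h1 h2
    exact ⟨T, fun i => ⟨hw i, hl i⟩⟩
  · rintro ⟨T, hT⟩
    obtain ⟨sel, h1, h2⟩ := tomo_back (col S) (col_inj S hS) (row S) (row_lt S) (cell_lt S)
      (rowT U V) (diagT S) (rowT_sum hUV) (cover_cons S hUV) T (fun i => (hT i).1)
      (fun i => (hT i).2)
    exact cover_back S hS sel h1 h2

theorem cup_le (S : Fin V → Fin 3 → Fin U) (hS : ∀ v, Function.Injective (S v))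
    (i : Cup U V) : cupW S i + cupL S i ≤ Fintype.card (Cup U V) - 1 := by
  have hcard := card_cup U V
  rw [hcard]
  rcases i with x | b | h
  · have h1 := below_lt (col S) x.1
    have h2 := cell_lt S x.1 x.2
    have h3 := row_lt S x.1 x.2
    simp only [cupW, cupL, tabW, tabL]
    simp only [Fintype.card_prod, Fintype.card_fin] at h1 ⊢
    generalize below (col S) x.1 = n1 at *
    generalize col S x.1 + row S x.1 x.2 = n2 at *
    generalize row S x.1 x.2 = n3 at *
    have h4 : 12 * U * V = 12 * (U * V) := by ring
    rw [h4] at h2 ⊢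
    generalize U * V = n4 at *
    omega
  · simp only [cupW, cupL, tabW, tabL, diagT]
    have h1 : (Finset.univ.filter fun x : (Fin V × Fin 6) × Bool =>
        (b : ℕ) < col S x.1 + row S x.1 x.2).card
        + (Finset.univ.filter fun p : Fin V × Fin 6 => diag S p.1 p.2 = (b : ℕ)).card
        ≤ Fintype.card ((Fin V × Fin 6) × Bool) := by
      have h2 : (Finset.univ.filter fun p : Fin V × Fin 6 => diag S p.1 p.2 = (b : ℕ)).card
          ≤ (Finset.univ.filter fun x : (Fin V × Fin 6) × Bool =>
            ¬ (b : ℕ) < col S x.1 + row S x.1 x.2).card := by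
        refine Finset.card_le_card_of_injOn (fun p => (p, false)) ?_ ?_
        · intro p hp
          have hp' : diag S p.1 p.2 = (b : ℕ) := by simpa using hp
          have := cell_false S p.1 p.2
          simp only [Finset.coe_filter, Finset.mem_univ, true_and, Set.mem_setOf_eq]
          change ¬ (b : ℕ) < col S (p.1, p.2) + row S (p.1, p.2) false
          omega
        · intro p _ q _ h
          exact congrArg Prod.fst h
      have h3 := Finset.card_filter_add_card_filter_not (s := Finset.univ)
        (fun x : (Fin V × Fin 6) × Bool => (b : ℕ) < col S x.1 + row S x.1 x.2)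
      rw [Finset.card_univ] at h3
      omega
    simp only [Fintype.card_prod, Fintype.card_fin, Fintype.card_bool] at h1
    omega
  · simp only [cupW, cupL, tabW, tabL, rowT]
    have h1 : (Finset.univ.filter fun x : (Fin V × Fin 6) × Bool =>
        (h : ℕ) < row S x.1 x.2).card ≤ 12 * V := by
      refine (Finset.card_filter_le _ _).trans ?_
      rw [Finset.card_univ, Fintype.card_prod, Fintype.card_prod]
      simp only [Fintype.card_fin, Fintype.card_bool]
      omega
    have h2 : (Finset.univ.filter fun u : Fin U => U + (u : ℕ) = (h : ℕ)).card ≤ 1 := by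
      rw [Finset.card_le_one]
      intro u hu v hv
      simp only [Finset.mem_filter, Finset.mem_univ, true_and] at hu hv
      exact Fin.ext (by omega)
    have h3 : (Finset.univ.filter fun u : Fin U => 5 * U - (u : ℕ) = (h : ℕ)).card ≤ 1 := by
      rw [Finset.card_le_one]
      intro u hu v hv
      simp only [Finset.mem_filter, Finset.mem_univ, true_and] at hu hv
      have := u.2
      have := v.2
      exact Fin.ext (by omega)
    rcases Nat.eq_zero_or_pos U with hU | hU
    · subst hU
      have hV : V = 0 := by
        by_contra hne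
        exact (S ⟨0, Nat.pos_of_ne_zero hne⟩ 0).elim0
      subst hV
      simp
    · have h4 : V ≤ U * V := Nat.le_mul_of_pos_left _ hU
      have h5 : 12 * U * V = 12 * (U * V) := by ring
      rw [h5]
      generalize U * V = n4 at *
      by_cases e1 : (h : ℕ) = 0
      · have e2 : ¬ (h : ℕ) = 6 * U := by omega
        rw [if_pos e1, if_neg e2]
        omega
      · rw [if_neg e1]
        split <;> omega

theorem wins_draws_iff (S : Fin V → Fin 3 → Fin U) (hS : ∀ v, Function.Injective (S v))
    (T : Tournament (Cup U V)) :
    (∀ i, T.wins i = cupW S i ∧ T.losses i = cupL S i) ↔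
      ∀ i, T.wins i = cupW S i ∧ T.draws i = cupD S i := by
  refine forall_congr' fun i => and_congr_right fun hw => ?_
  have h1 := T.wins_add i
  have h2 := cup_le S hS i
  unfold cupD
  omega

/-- Exact cover by sets of size three reduces to the league table problem and to the problem
of soccer scores with a large number of points for a win. -/
theorem main (S : Fin V → Fin 3 → Fin U) (hS : ∀ v, Function.Injective (S v))
    (hUV : U ≤ 3 * V) :
    (HasExactCover S ↔ ∃ T : Tournament (Cup U V), ∀ i,
      T.wins i = cupW S i ∧ T.score 3 i = 3 * cupW S i + cupD S i) ∧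
    (∀ a p : ℕ, 3 ≤ a → Fintype.card (Cup U V) ≤ a →
      (HasExactCover S ↔ ∃ T : Tournament (Cup U V ⊕ Fin p), ∀ i,
        T.score a i = padScore a (fun i => a * cupW S i + cupD S i) p i)) := by
  have h1 : HasExactCover S ↔ ∃ T : Tournament (Cup U V), ∀ i,
      T.wins i = cupW S i ∧ T.draws i = cupD S i := by
    rw [cup_iff S hS hUV]
    exact exists_congr fun T => wins_draws_iff S hS T
  constructor
  · rw [h1]
    refine exists_congr fun T => forall_congr' fun i => and_congr_right fun hw => ?_
    unfold Tournament.score
    rw [hw]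
    omega
  · intro a p ha hn
    rw [h1]
    refine pad_iff a p ha hn (cupW S) (cupD S) fun i => ?_
    have := card_cup U V
    unfold cupD
    omega

end Pool.Agent.Work.MP_1a5986_lc
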