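import Pool.Agent.Work.MP_1a5986_lc.Basic

namespace Pool.Agent.Work.MP_1a5986_lc

open Finset

set_option linter.unusedSectionVars false

variable {P : Type} [Fintype P] [DecidableEq P]

theorem card_lt_fin (R n : ℕ) (h : n ≤ R) : (∑ b : Fin R, if (b : ℕ) < n then (1 : ℤ) else 0) = n := by
  rw [Fin.sum_univ_eq_sum_range (fun b => if b < n then (1 : ℤ) else 0) R]
  rw [← Finset.sum_filter]
  have : (Finset.range R).filter (fun b => b < n) = Finset.range n := by
    ext b
    simp only [Finset.mem_filter, Finset.mem_range]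
    omega
  rw [this]
  simp

theorem max_sum_fin (R n : ℕ) (h : n ≤ R) :
    (∑ b : Fin R, max ((n : ℤ) - (b : ℕ)) 0)
      = (n : ℤ) * n - ∑ b : Fin R, if (b : ℕ) < n then ((b : ℕ) : ℤ) else 0 := by
  have h1 := card_lt_fin R n h
  have : (∑ b : Fin R, max ((n : ℤ) - (b : ℕ)) 0)
      = ∑ b : Fin R, ((n : ℤ) * (if (b : ℕ) < n then (1 : ℤ) else 0)
        - if (b : ℕ) < n then ((b : ℕ) : ℤ) else 0) := by
    refine Finset.sum_congr rfl fun b _ => ?_
    by_cases hb : (b : ℕ) < n
    · simp only [hb, if_true]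
      rw [max_eq_left (by omega)]
      ring
    · simp only [hb, if_false]
      rw [max_eq_right (by omega)]
      ring
  rw [this, Finset.sum_sub_distrib, ← Finset.mul_sum, h1]

theorem below_sum (A : P → ℕ) (hA : Function.Injective A) :
    2 * ∑ p, (below A p : ℤ) = (Fintype.card P : ℤ) * ((Fintype.card P : ℤ) - 1) := by
  have h1 : ∑ p, (below A p : ℤ) = ∑ p, ∑ q, if A q < A p then (1 : ℤ) else 0 := by
    refine Finset.sum_congr rfl fun p _ => ?_
    unfold below
    rw [Finset.card_filter]
    push_cast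
    rfl
  have h2 : ∑ p, (below A p : ℤ) = ∑ p, ∑ q, if A p < A q then (1 : ℤ) else 0 := by
    rw [h1, Finset.sum_comm]
  have h3 : ∑ p : P, ∑ q : P, (1 : ℤ) = ∑ p : P, ∑ q : P, ((if A q < A p then (1 : ℤ) else 0)
      + (if A p < A q then (1 : ℤ) else 0) + if p = q then (1 : ℤ) else 0) := by
    refine Finset.sum_congr rfl fun p _ => Finset.sum_congr rfl fun q _ => ?_
    rcases lt_trichotomy (A q) (A p) with h | h | h
    · have h' : p ≠ q := by rintro rfl; omega
      have h'' : ¬ A p < A q := by omega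
      simp [h, h', h'']
    · have h' : p = q := (hA h).symm
      subst h'
      simp
    · have h' : p ≠ q := by rintro rfl; omega
      have h'' : ¬ A q < A p := by omega
      simp [h, h', h'']
  simp only [Finset.sum_add_distrib, ← h1, ← h2] at h3
  simp only [Finset.sum_ite_eq, Finset.mem_univ, if_true, Finset.sum_const, Finset.card_univ,
    nsmul_eq_mul, mul_one] at h3
  linarith

theorem card_below2 (A : P → ℕ) (p : P) :
    (∑ y : P × Bool, if A y.1 < A p then (1 : ℤ) else 0) = 2 * (below A p : ℤ) := by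
  rw [Fintype.sum_prod_type]
  simp only [Fintype.sum_bool]
  rw [Finset.sum_add_distrib, ← two_mul]
  unfold below
  rw [Finset.card_filter]
  push_cast
  rfl

theorem card_same2 (A : P → ℕ) (hA : Function.Injective A) (p : P) :
    (∑ y : P × Bool, if A y.1 = A p then (1 : ℤ) else 0) = 2 := by
  rw [Fintype.sum_prod_type]
  simp only [Fintype.sum_bool]
  rw [Finset.sum_add_distrib, ← two_mul]
  have : (∑ q : P, if A q = A p then (1 : ℤ) else 0) = 1 := by
    have h : ∀ q : P, (if A q = A p then (1 : ℤ) else 0) = if q = p then 1 else 0 := by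
      intro q
      by_cases hq : q = p
      · simp [hq]
      · have : A q ≠ A p := fun e => hq (hA e)
        simp [hq, this]
    simp [h]
  rw [this]
  norm_num

/-- The sum of the maxima. -/
theorem max_sum (A : P → ℕ) (hA : Function.Injective A) :
    (∑ x : P × Bool, ∑ y : P × Bool, max (A x.1 : ℤ) (A y.1 : ℤ))
      = 4 * (∑ x : P × Bool, (A x.1 : ℤ) * below A x.1) + 2 * ∑ x : P × Bool, (A x.1 : ℤ) := by
  have h1 : ∀ x y : P × Bool, max (A x.1 : ℤ) (A y.1 : ℤ)
      = (A x.1 : ℤ) * (if A y.1 < A x.1 then (1 : ℤ) else 0)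
        + (A y.1 : ℤ) * (if A x.1 < A y.1 then (1 : ℤ) else 0)
        + (A x.1 : ℤ) * (if A y.1 = A x.1 then (1 : ℤ) else 0) := by
    intro x y
    rcases lt_trichotomy (A y.1) (A x.1) with h | h | h
    · have h' : ¬ A x.1 < A y.1 := by omega
      have h'' : ¬ A y.1 = A x.1 := by omega
      rw [max_eq_left (by exact_mod_cast h.le)]
      simp [h, h', h'']
    · rw [h]
      simp
    · have h' : ¬ A y.1 < A x.1 := by omega
      have h'' : ¬ A y.1 = A x.1 := by omega
      rw [max_eq_right (by exact_mod_cast h.le)]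
      simp [h, h', h'']
  simp only [h1, Finset.sum_add_distrib]
  rw [Finset.sum_comm (f := fun (x y : P × Bool) =>
    (A y.1 : ℤ) * (if A x.1 < A y.1 then (1 : ℤ) else 0))]
  simp only [← Finset.mul_sum, card_below2, card_same2 A hA]
  have : ∀ x : P × Bool, (A x.1 : ℤ) * (2 * (below A x.1 : ℤ)) = 2 * ((A x.1 : ℤ) * below A x.1) := by
    intro x; ring
  simp only [this, ← Finset.mul_sum, ← Finset.sum_mul]
  ring

end Pool.Agent.Work.MP_1a5986_lc
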