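import Pool.Agent.Work.MP_1a5986_lc.TomoA

namespace Pool.Agent.Work.MP_1a5986_lc

open Finset

set_option linter.unusedSectionVars false

variable {P : Type} [Fintype P] [DecidableEq P] {R H : ℕ}

theorem below_lt (A : P → ℕ) (p : P) : below A p + 1 ≤ Fintype.card P := by
  unfold below
  have : (Finset.univ.filter fun q => A q < A p) ⊂ Finset.univ := by
    rw [Finset.filter_ssubset]
    exact ⟨p, Finset.mem_univ p, lt_irrefl _⟩
  have := Finset.card_lt_card this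
  rw [Finset.card_univ] at this
  omega

theorem tabL_inl (A : P → ℕ) (C : P → Bool → ℕ) (δ : ℕ → ℕ) (x : P × Bool) :
    ((tabL A C δ (Sum.inl x : Teams P R H) : ℕ) : ℤ)
      = 2 * (Fintype.card P : ℤ) - 1 - 2 * (below A x.1 : ℤ) + (C x.1 x.2 : ℤ) := by
  have h := below_lt A x.1
  simp only [tabL]
  omega

/-- weight of a win -/
private def pw (A : P → ℕ) (C : P → Bool → ℕ) : Teams P R H → ℤ
  | .inl x => (A x.1 : ℤ) + C x.1 x.2
  | .inr (.inl _) => 0
  | .inr (.inr h) => -(1 + ((h : ℕ) : ℤ))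

/-- weight of a loss -/
private def qw (C : P → Bool → ℕ) : Teams P R H → ℤ
  | .inl x => 1 + (C x.1 x.2 : ℤ)
  | .inr (.inl b) => -((b : ℕ) : ℤ)
  | .inr (.inr _) => 0

/-- the largest value of a match -/
private def gw (A : P → ℕ) (C : P → Bool → ℕ) : Teams P R H → Teams P R H → ℤ
  | .inl x, .inl y => if x = y then 0 else
      max (A x.1 : ℤ) (A y.1 : ℤ) + (C x.1 x.2 : ℤ) + (C y.1 y.2 : ℤ) + 1
  | .inl x, .inr (.inl b) => max (((A x.1 + C x.1 x.2 : ℕ) : ℤ) - ((b : ℕ) : ℤ)) 0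
  | .inr (.inl b), .inl x => max (((A x.1 + C x.1 x.2 : ℕ) : ℤ) - ((b : ℕ) : ℤ)) 0
  | .inl x, .inr (.inr h) => max ((C x.1 x.2 : ℤ) - ((h : ℕ) : ℤ)) 0
  | .inr (.inr h), .inl x => max ((C x.1 x.2 : ℤ) - ((h : ℕ) : ℤ)) 0
  | .inr _, .inr _ => 0

private theorem term_le (A : P → ℕ) (C : P → Bool → ℕ) (T : Tournament (Teams P R H))
    (hY : ∀ b : Fin R, ∀ j, T.W (Sum.inr (Sum.inl b)) j = 0)
    (hZ : ∀ h : Fin H, ∀ j, T.W j (Sum.inr (Sum.inr h)) = 0) (i j : Teams P R H) :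
    T.W i j * (pw A C i + qw C j) + T.W j i * (pw A C j + qw C i) ≤ gw A C i j := by
  rcases i with x | b | h <;> rcases j with y | b' | h'
  · simp only [pw, qw, gw]
    by_cases hxy : x = y
    · subst hxy
      simp [T.W_self]
    · rw [if_neg hxy]
      have ha := T.W_add (Sum.inl x) (Sum.inl y)
      have m1 := le_max_left (A x.1 : ℤ) (A y.1 : ℤ)
      have m2 := le_max_right (A x.1 : ℤ) (A y.1 : ℤ)
      rcases T.W_cases (Sum.inl x) (Sum.inl y) with h1 | h1 <;>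
      rcases T.W_cases (Sum.inl y) (Sum.inl x) with h2 | h2 <;>
      rw [h1, h2] at ha ⊢ <;> omega
  · simp only [pw, qw, gw, hY, zero_mul, add_zero]
    have m1 := le_max_left (((A x.1 + C x.1 x.2 : ℕ) : ℤ) - ((b' : ℕ) : ℤ)) 0
    have m2 := le_max_right (((A x.1 + C x.1 x.2 : ℕ) : ℤ) - ((b' : ℕ) : ℤ)) 0
    rcases T.W_cases (Sum.inl x) (Sum.inr (Sum.inl b')) with h1 | h1 <;> rw [h1] <;>
      push_cast at * <;> omega
  · simp only [pw, qw, gw, hZ, zero_mul, zero_add]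
    have m1 := le_max_left ((C x.1 x.2 : ℤ) - ((h' : ℕ) : ℤ)) 0
    have m2 := le_max_right ((C x.1 x.2 : ℤ) - ((h' : ℕ) : ℤ)) 0
    rcases T.W_cases (Sum.inr (Sum.inr h')) (Sum.inl x) with h1 | h1 <;> rw [h1] <;> omega
  · simp only [pw, qw, gw, hY, zero_mul, zero_add]
    have m1 := le_max_left (((A y.1 + C y.1 y.2 : ℕ) : ℤ) - ((b : ℕ) : ℤ)) 0
    have m2 := le_max_right (((A y.1 + C y.1 y.2 : ℕ) : ℤ) - ((b : ℕ) : ℤ)) 0
    rcases T.W_cases (Sum.inl y) (Sum.inr (Sum.inl b)) with h1 | h1 <;> rw [h1] <;>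
      push_cast at * <;> omega
  · simp [gw, hY]
  · simp only [pw, qw, gw, hY, zero_mul, zero_add]
    rcases T.W_cases (Sum.inr (Sum.inr h')) (Sum.inr (Sum.inl b)) with h1 | h1 <;> rw [h1] <;> omega
  · simp only [pw, qw, gw, hZ, zero_mul, add_zero]
    have m1 := le_max_left ((C y.1 y.2 : ℤ) - ((h : ℕ) : ℤ)) 0
    have m2 := le_max_right ((C y.1 y.2 : ℤ) - ((h : ℕ) : ℤ)) 0
    rcases T.W_cases (Sum.inr (Sum.inr h)) (Sum.inl y) with h1 | h1 <;> rw [h1] <;> omega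
  · simp only [pw, qw, gw, hY, zero_mul, add_zero]
    rcases T.W_cases (Sum.inr (Sum.inr h)) (Sum.inr (Sum.inl b')) with h1 | h1 <;> rw [h1] <;> omega
  · simp [gw, hZ]

private theorem sum_value (A : P → ℕ) (C : P → Bool → ℕ) (T : Tournament (Teams P R H)) :
    (∑ i : Teams P R H, ∑ j : Teams P R H,
      (T.W i j * (pw A C i + qw C j) + T.W j i * (pw A C j + qw C i)))
      = 2 * (∑ i : Teams P R H, pw A C i * (T.wins i : ℤ)
        + ∑ i : Teams P R H, qw C i * (T.losses i : ℤ)) := by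
  have h1 : (∑ i : Teams P R H, pw A C i * (T.wins i : ℤ)) = ∑ i, ∑ j : Teams P R H, T.W i j * pw A C i := by
    refine Finset.sum_congr rfl fun i _ => ?_
    rw [T.wins_eq, Finset.mul_sum]
    exact Finset.sum_congr rfl fun j _ => mul_comm _ _
  have h2 : (∑ i : Teams P R H, qw C i * (T.losses i : ℤ)) = ∑ i : Teams P R H, ∑ j : Teams P R H, T.W i j * qw C j := by
    rw [Finset.sum_comm]
    refine Finset.sum_congr rfl fun i _ => ?_
    rw [T.losses_eq, Finset.mul_sum]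
    exact Finset.sum_congr rfl fun j _ => mul_comm _ _
  have h3 : (∑ i : Teams P R H, ∑ j : Teams P R H, T.W j i * (pw A C j + qw C i))
      = ∑ i : Teams P R H, ∑ j : Teams P R H, T.W i j * (pw A C i + qw C j) := by
    rw [Finset.sum_comm]
  simp only [Finset.sum_add_distrib]
  rw [h3, h1, h2]
  simp only [mul_add, Finset.sum_add_distrib]
  ring

private theorem sum_gw (A : P → ℕ) (hA : Function.Injective A) (C : P → Bool → ℕ)
    (hC : ∀ p e, C p e < H) (hB : ∀ p e, A p + C p e < R) :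
    (∑ i : Teams P R H, ∑ j : Teams P R H, gw A C i j)
      = 4 * (∑ x : P × Bool, (A x.1 : ℤ) * below A x.1) + (∑ x : P × Bool, (A x.1 : ℤ))
        + (4 * (Fintype.card P : ℤ) - 2) * (∑ x : P × Bool, (C x.1 x.2 : ℤ))
        + (2 * (Fintype.card P : ℤ)) * (2 * (Fintype.card P : ℤ) - 1)
        + 2 * (∑ x : P × Bool, ((A x.1 : ℤ) + C x.1 x.2) * ((A x.1 : ℤ) + C x.1 x.2))
        - 2 * (∑ x : P × Bool, ∑ b : Fin R,
            if (b : ℕ) < A x.1 + C x.1 x.2 then ((b : ℕ) : ℤ) else 0)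
        + 2 * (∑ x : P × Bool, (C x.1 x.2 : ℤ) * (C x.1 x.2 : ℤ))
        - 2 * (∑ x : P × Bool, ∑ h : Fin H, if (h : ℕ) < C x.1 x.2 then ((h : ℕ) : ℤ) else 0) := by
  have hcard : (Fintype.card (P × Bool) : ℤ) = 2 * (Fintype.card P : ℤ) := by
    rw [Fintype.card_prod, Fintype.card_bool]; push_cast; ring
  have h1 : (∑ x : P × Bool, ∑ y : P × Bool, gw (R := R) (H := H) A C (Sum.inl x) (Sum.inl y))
      = 4 * (∑ x : P × Bool, (A x.1 : ℤ) * below A x.1) + (∑ x : P × Bool, (A x.1 : ℤ))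
        + (4 * (Fintype.card P : ℤ) - 2) * (∑ x : P × Bool, (C x.1 x.2 : ℤ))
        + (2 * (Fintype.card P : ℤ)) * (2 * (Fintype.card P : ℤ) - 1) := by
    have e1 : ∀ x y : P × Bool, gw (R := R) (H := H) A C (Sum.inl x) (Sum.inl y)
        = max (A x.1 : ℤ) (A y.1 : ℤ) + (C x.1 x.2 : ℤ) + (C y.1 y.2 : ℤ) + 1
          - (if x = y then ((A x.1 : ℤ) + 2 * (C x.1 x.2 : ℤ) + 1) else 0) := by
      intro x y
      simp only [gw]
      by_cases hxy : x = y
      · subst hxy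
        simp only [if_true, max_self]
        ring
      · simp only [hxy, if_false]
        ring
    simp only [e1, Finset.sum_sub_distrib, Finset.sum_add_distrib, Finset.sum_ite_eq,
      Finset.mem_univ, if_true, Finset.sum_const, Finset.card_univ, nsmul_eq_mul, mul_one]
    rw [max_sum A hA]
    simp only [← Finset.mul_sum]
    rw [hcard]
    ring
  have h2 : (∑ x : P × Bool, ∑ b : Fin R, gw (R := R) (H := H) A C (Sum.inl x) (Sum.inr (Sum.inl b)))
      = (∑ x : P × Bool, ((A x.1 : ℤ) + C x.1 x.2) * ((A x.1 : ℤ) + C x.1 x.2))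
        - (∑ x : P × Bool, ∑ b : Fin R,
            if (b : ℕ) < A x.1 + C x.1 x.2 then ((b : ℕ) : ℤ) else 0) := by
    rw [← Finset.sum_sub_distrib]
    refine Finset.sum_congr rfl fun x _ => ?_
    simp only [gw]
    rw [max_sum_fin R (A x.1 + C x.1 x.2) (hB x.1 x.2).le]
    push_cast
    ring
  have h3 : (∑ x : P × Bool, ∑ h : Fin H, gw (R := R) (H := H) A C (Sum.inl x) (Sum.inr (Sum.inr h)))
      = (∑ x : P × Bool, (C x.1 x.2 : ℤ) * (C x.1 x.2 : ℤ))
        - (∑ x : P × Bool, ∑ h : Fin H,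
            if (h : ℕ) < C x.1 x.2 then ((h : ℕ) : ℤ) else 0) := by
    rw [← Finset.sum_sub_distrib]
    refine Finset.sum_congr rfl fun x _ => ?_
    simp only [gw]
    rw [max_sum_fin H (C x.1 x.2) (hC x.1 x.2).le]
  have h2' : (∑ b : Fin R, ∑ x : P × Bool, gw (R := R) (H := H) A C (Sum.inr (Sum.inl b)) (Sum.inl x))
      = (∑ x : P × Bool, ∑ b : Fin R, gw (R := R) (H := H) A C (Sum.inl x) (Sum.inr (Sum.inl b))) := by
    rw [Finset.sum_comm]
    rfl
  have h3' : (∑ h : Fin H, ∑ x : P × Bool, gw (R := R) (H := H) A C (Sum.inr (Sum.inr h)) (Sum.inl x))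
      = (∑ x : P × Bool, ∑ h : Fin H, gw (R := R) (H := H) A C (Sum.inl x) (Sum.inr (Sum.inr h))) := by
    rw [Finset.sum_comm]
    rfl
  simp only [Fintype.sum_sum_type, Finset.sum_add_distrib]
  rw [h2', h3', h1, h2, h3]
  simp only [gw, Finset.sum_const_zero]
  ring

/-- All matches have the largest possible value. -/
private theorem term_eq (A : P → ℕ) (hA : Function.Injective A) (C : P → Bool → ℕ)
    (hC : ∀ p e, C p e < H) (hB : ∀ p e, A p + C p e < R) (ρ δ : ℕ → ℕ)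
    (hρ : ∑ h ∈ range H, ρ h = Fintype.card P)
    (hcons : (∑ p, A p) + (∑ h ∈ range H, h * ρ h) + (∑ b ∈ range R, b * δ b)
      = ∑ x : P × Bool, (A x.1 + C x.1 x.2))
    (T : Tournament (Teams P R H)) (hw : ∀ i, T.wins i = tabW A C ρ i)
    (hl : ∀ i, T.losses i = tabL A C δ i) (i j : Teams P R H) :
    T.W i j * (pw A C i + qw C j) + T.W j i * (pw A C j + qw C i) = gw A C i j := by
  have hY : ∀ b : Fin R, ∀ j, T.W (Sum.inr (Sum.inl b)) j = 0 := by
    intro b j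
    have h1 := T.wins_eq (Sum.inr (Sum.inl b))
    rw [hw] at h1
    simp only [tabW, Nat.cast_zero] at h1
    exact (Finset.sum_eq_zero_iff_of_nonneg (fun j _ => T.W_nonneg _ j)).1 h1.symm j
      (Finset.mem_univ j)
  have hZ : ∀ h : Fin H, ∀ j, T.W j (Sum.inr (Sum.inr h)) = 0 := by
    intro h j
    have h1 := T.losses_eq (Sum.inr (Sum.inr h))
    rw [hl] at h1
    simp only [tabL, Nat.cast_zero] at h1
    exact (Finset.sum_eq_zero_iff_of_nonneg (fun j _ => T.W_nonneg j _)).1 h1.symm j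
      (Finset.mem_univ j)
  have hle := term_le A C T hY hZ
  have hsum : (∑ i : Teams P R H, ∑ j : Teams P R H,
      (T.W i j * (pw A C i + qw C j) + T.W j i * (pw A C j + qw C i)))
      = ∑ i : Teams P R H, ∑ j : Teams P R H, gw A C i j := by
    rw [sum_value, sum_gw A hA C hC hB]
    simp only [hw, hl]
    simp only [Fintype.sum_sum_type, pw, qw, zero_mul, Finset.sum_const_zero, zero_add,
      tabL_inl]
    simp only [tabW, tabL]
    have hbs := below_sum A hA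
    have hcons' : (∑ p, (A p : ℤ)) + (∑ h : Fin H, ((h : ℕ) : ℤ) * (ρ h : ℤ))
        + (∑ b : Fin R, ((b : ℕ) : ℤ) * (δ b : ℤ))
        = (∑ x : P × Bool, (A x.1 : ℤ)) + ∑ x : P × Bool, (C x.1 x.2 : ℤ) := by
      rw [← Finset.sum_add_distrib,
        Fin.sum_univ_eq_sum_range (fun h => (h : ℤ) * (ρ h : ℤ)) H,
        Fin.sum_univ_eq_sum_range (fun b => (b : ℤ) * (δ b : ℤ)) R]
      exact_mod_cast hcons
    have hρ' : (∑ h : Fin H, (ρ h : ℤ)) = (Fintype.card P : ℤ) := by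
      rw [Fin.sum_univ_eq_sum_range (fun h => (ρ h : ℤ)) H]
      exact_mod_cast hρ
    have hAx : (∑ x : P × Bool, (A x.1 : ℤ)) = 2 * ∑ p, (A p : ℤ) := by
      rw [Fintype.sum_prod_type]
      simp only [Fintype.sum_bool]
      rw [Finset.sum_add_distrib, two_mul]
    have hbx : (∑ x : P × Bool, (below A x.1 : ℤ)) = 2 * ∑ p, (below A p : ℤ) := by
      rw [Fintype.sum_prod_type]
      simp only [Fintype.sum_bool]
      rw [Finset.sum_add_distrib, two_mul]
    have hM : (∑ b : Fin R, -((b : ℕ) : ℤ) * (((Finset.univ.filter fun x : P × Bool =>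
          (b : ℕ) < A x.1 + C x.1 x.2).card + δ b : ℕ) : ℤ))
        = - (∑ x : P × Bool, ∑ b : Fin R,
            if (b : ℕ) < A x.1 + C x.1 x.2 then ((b : ℕ) : ℤ) else 0)
          - (∑ b : Fin R, ((b : ℕ) : ℤ) * (δ b : ℤ)) := by
      rw [Finset.sum_comm, ← Finset.sum_neg_distrib, ← Finset.sum_sub_distrib]
      refine Finset.sum_congr rfl fun b _ => ?_
      rw [Finset.card_filter]
      push_cast
      rw [mul_add, Finset.mul_sum, ← Finset.sum_neg_distrib]
      have : ∀ x : P × Bool, -((b : ℕ) : ℤ) * (if (b : ℕ) < A x.1 + C x.1 x.2 then (1 : ℤ) else 0)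
          = - if (b : ℕ) < A x.1 + C x.1 x.2 then ((b : ℕ) : ℤ) else 0 := by
        intro x
        split <;> ring
      simp only [this]
      ring
    have hN : (∑ h : Fin H, -(1 + ((h : ℕ) : ℤ)) * (((Finset.univ.filter fun x : P × Bool =>
          (h : ℕ) < C x.1 x.2).card + ρ h : ℕ) : ℤ))
        = - (∑ x : P × Bool, (C x.1 x.2 : ℤ)) - (∑ x : P × Bool, ∑ h : Fin H,
            if (h : ℕ) < C x.1 x.2 then ((h : ℕ) : ℤ) else 0)
          - (∑ h : Fin H, (ρ h : ℤ)) - (∑ h : Fin H, ((h : ℕ) : ℤ) * (ρ h : ℤ)) := by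
      have hc : (∑ x : P × Bool, (C x.1 x.2 : ℤ)) = ∑ x : P × Bool, ∑ h : Fin H,
          if (h : ℕ) < C x.1 x.2 then (1 : ℤ) else 0 := by
        refine Finset.sum_congr rfl fun x _ => ?_
        rw [card_lt_fin H _ (hC x.1 x.2).le]
      rw [hc, Finset.sum_comm, Finset.sum_comm (f := fun (x : P × Bool) (h : Fin H) =>
        if (h : ℕ) < C x.1 x.2 then ((h : ℕ) : ℤ) else 0), ← Finset.sum_neg_distrib,
        ← Finset.sum_sub_distrib, ← Finset.sum_sub_distrib, ← Finset.sum_sub_distrib]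
      refine Finset.sum_congr rfl fun h _ => ?_
      rw [Finset.card_filter]
      push_cast
      have h1 : (∑ x : P × Bool, if (h : ℕ) < C x.1 x.2 then ((h : ℕ) : ℤ) else 0)
          = ((h : ℕ) : ℤ) * ∑ x : P × Bool, if (h : ℕ) < C x.1 x.2 then (1 : ℤ) else 0 := by
        rw [Finset.mul_sum]
        refine Finset.sum_congr rfl fun x _ => ?_
        split <;> ring
      rw [h1]
      ring
    rw [hM, hN]
    have hX1 : (∑ x : P × Bool, ((A x.1 : ℤ) + (C x.1 x.2 : ℤ)) *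
          ((2 * below A x.1 + (A x.1 + C x.1 x.2) + 1 : ℕ) : ℤ))
        + (∑ x : P × Bool, (1 + (C x.1 x.2 : ℤ)) *
          (2 * (Fintype.card P : ℤ) - 1 - 2 * (below A x.1 : ℤ) + (C x.1 x.2 : ℤ)))
        = 2 * (∑ x : P × Bool, (A x.1 : ℤ) * below A x.1)
          + (∑ x : P × Bool, ((A x.1 : ℤ) + C x.1 x.2) * ((A x.1 : ℤ) + C x.1 x.2))
          + (∑ x : P × Bool, (C x.1 x.2 : ℤ) * (C x.1 x.2 : ℤ))
          + (∑ x : P × Bool, (A x.1 : ℤ))
          + (2 * (Fintype.card P : ℤ) + 1) * (∑ x : P × Bool, (C x.1 x.2 : ℤ))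
          + (2 * (Fintype.card P : ℤ) - 1) * (2 * (Fintype.card P : ℤ))
          - 2 * (∑ x : P × Bool, (below A x.1 : ℤ)) := by
      have hcard : (2 * (Fintype.card P : ℤ) - 1) * (2 * (Fintype.card P : ℤ))
          = ∑ x : P × Bool, (2 * (Fintype.card P : ℤ) - 1) := by
        rw [Finset.sum_const, Finset.card_univ, Fintype.card_prod, Fintype.card_bool, nsmul_eq_mul]
        push_cast
        ring
      rw [hcard]
      simp only [Finset.mul_sum]
      simp only [← Finset.sum_add_distrib, ← Finset.sum_sub_distrib]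
      refine Finset.sum_congr rfl fun x _ => ?_
      push_cast
      ring
    linear_combination 2 * hX1 - 2 * hcons' - hAx - 2 * hρ' - 4 * hbx - 4 * hbs
  have hi : ∀ i : Teams P R H, ∑ j : Teams P R H,
      (T.W i j * (pw A C i + qw C j) + T.W j i * (pw A C j + qw C i))
      = ∑ j : Teams P R H, gw A C i j := by
    intro i
    exact (Finset.sum_eq_sum_iff_of_le (fun i _ => Finset.sum_le_sum fun j _ => hle i j)).1 hsum i
      (Finset.mem_univ i)
  exact (Finset.sum_eq_sum_iff_of_le (fun j _ => hle i j)).1 (hi i) j (Finset.mem_univ j)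

/-- The structure of all tournaments with the prescribed table. -/
theorem table_structure (A : P → ℕ) (hA : Function.Injective A) (C : P → Bool → ℕ)
    (hC : ∀ p e, C p e < H) (hB : ∀ p e, A p + C p e < R) (ρ δ : ℕ → ℕ)
    (hρ : ∑ h ∈ range H, ρ h = Fintype.card P)
    (hcons : (∑ p, A p) + (∑ h ∈ range H, h * ρ h) + (∑ b ∈ range R, b * δ b)
      = ∑ x : P × Bool, (A x.1 + C x.1 x.2))
    (T : Tournament (Teams P R H)) (hw : ∀ i, T.wins i = tabW A C ρ i)
    (hl : ∀ i, T.losses i = tabL A C δ i) :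
    (∀ b : Fin R, ∀ j, T.W (Sum.inr (Sum.inl b)) j = 0) ∧
    (∀ h : Fin H, ∀ j, T.W j (Sum.inr (Sum.inr h)) = 0) ∧
    (∀ x y : P × Bool, A y.1 < A x.1 → T.W (Sum.inl x) (Sum.inl y) = 1) ∧
    (∀ x y : P × Bool, x ≠ y → T.W (Sum.inl x) (Sum.inl y) + T.W (Sum.inl y) (Sum.inl x) = 1) ∧
    (∀ x : P × Bool, ∀ b : Fin R, (b : ℕ) < A x.1 + C x.1 x.2 →
      T.W (Sum.inl x) (Sum.inr (Sum.inl b)) = 1) ∧
    (∀ x : P × Bool, ∀ b : Fin R, A x.1 + C x.1 x.2 < (b : ℕ) →
      T.W (Sum.inl x) (Sum.inr (Sum.inl b)) = 0) ∧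
    (∀ x : P × Bool, ∀ h : Fin H, (h : ℕ) < C x.1 x.2 →
      T.W (Sum.inr (Sum.inr h)) (Sum.inl x) = 1) ∧
    (∀ x : P × Bool, ∀ h : Fin H, C x.1 x.2 < (h : ℕ) →
      T.W (Sum.inr (Sum.inr h)) (Sum.inl x) = 0) ∧
    (∀ h : Fin H, ∀ b : Fin R, T.W (Sum.inr (Sum.inr h)) (Sum.inr (Sum.inl b)) = 0) := by
  have hY : ∀ b : Fin R, ∀ j, T.W (Sum.inr (Sum.inl b)) j = 0 := by
    intro b j
    have h1 := T.wins_eq (Sum.inr (Sum.inl b))
    rw [hw] at h1
    simp only [tabW, Nat.cast_zero] at h1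
    exact (Finset.sum_eq_zero_iff_of_nonneg (fun j _ => T.W_nonneg _ j)).1 h1.symm j
      (Finset.mem_univ j)
  have hZ : ∀ h : Fin H, ∀ j, T.W j (Sum.inr (Sum.inr h)) = 0 := by
    intro h j
    have h1 := T.losses_eq (Sum.inr (Sum.inr h))
    rw [hl] at h1
    simp only [tabL, Nat.cast_zero] at h1
    exact (Finset.sum_eq_zero_iff_of_nonneg (fun j _ => T.W_nonneg j _)).1 h1.symm j
      (Finset.mem_univ j)
  have key := term_eq A hA C hC hB ρ δ hρ hcons T hw hl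
  refine ⟨hY, hZ, ?_, ?_, ?_, ?_, ?_, ?_, ?_⟩
  · intro x y hxy
    have k := key (Sum.inl x) (Sum.inl y)
    have hne : x ≠ y := by rintro rfl; exact lt_irrefl _ hxy
    simp only [pw, qw, gw, if_neg hne] at k
    have ha := T.W_add (Sum.inl x) (Sum.inl y)
    have hxy' : (A y.1 : ℤ) < A x.1 := by exact_mod_cast hxy
    rw [max_eq_left hxy'.le] at k
    rcases T.W_cases (Sum.inl x) (Sum.inl y) with h1 | h1 <;>
    rcases T.W_cases (Sum.inl y) (Sum.inl x) with h2 | h2 <;>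
    rw [h1, h2] at k ha <;> rw [h1] <;> omega
  · intro x y hne
    have k := key (Sum.inl x) (Sum.inl y)
    simp only [pw, qw, gw, if_neg hne] at k
    have ha := T.W_add (Sum.inl x) (Sum.inl y)
    have m1 := le_max_left (A x.1 : ℤ) (A y.1 : ℤ)
    rcases T.W_cases (Sum.inl x) (Sum.inl y) with h1 | h1 <;>
    rcases T.W_cases (Sum.inl y) (Sum.inl x) with h2 | h2 <;>
    rw [h1, h2] at k ha <;> rw [h1, h2] <;> omega
  · intro x b hb
    have k := key (Sum.inl x) (Sum.inr (Sum.inl b))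
    simp only [pw, qw, gw, hY, zero_mul, add_zero] at k
    have hb' : (0 : ℤ) < ((A x.1 + C x.1 x.2 : ℕ) : ℤ) - ((b : ℕ) : ℤ) := by
      have : ((b : ℕ) : ℤ) < ((A x.1 + C x.1 x.2 : ℕ) : ℤ) := by exact_mod_cast hb
      omega
    rw [max_eq_left hb'.le] at k
    rcases T.W_cases (Sum.inl x) (Sum.inr (Sum.inl b)) with h1 | h1 <;> rw [h1] at k ⊢
    push_cast at k hb'
    omega
  · intro x b hb
    have k := key (Sum.inl x) (Sum.inr (Sum.inl b))
    simp only [pw, qw, gw, hY, zero_mul, add_zero] at k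
    have hb' : ((A x.1 + C x.1 x.2 : ℕ) : ℤ) - ((b : ℕ) : ℤ) < 0 := by
      have : ((A x.1 + C x.1 x.2 : ℕ) : ℤ) < ((b : ℕ) : ℤ) := by exact_mod_cast hb
      omega
    rw [max_eq_right hb'.le] at k
    rcases T.W_cases (Sum.inl x) (Sum.inr (Sum.inl b)) with h1 | h1 <;> rw [h1] at k ⊢
    push_cast at k hb'
    omega
  · intro x h hb
    have k := key (Sum.inl x) (Sum.inr (Sum.inr h))
    simp only [pw, qw, gw, hZ, zero_mul, zero_add] at k
    have hb' : (0 : ℤ) < ((C x.1 x.2 : ℕ) : ℤ) - ((h : ℕ) : ℤ) := by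
      have : ((h : ℕ) : ℤ) < ((C x.1 x.2 : ℕ) : ℤ) := by exact_mod_cast hb
      omega
    rw [max_eq_left hb'.le] at k
    rcases T.W_cases (Sum.inr (Sum.inr h)) (Sum.inl x) with h1 | h1 <;> rw [h1] at k ⊢
    omega
  · intro x h hb
    have k := key (Sum.inl x) (Sum.inr (Sum.inr h))
    simp only [pw, qw, gw, hZ, zero_mul, zero_add] at k
    have hb' : ((C x.1 x.2 : ℕ) : ℤ) - ((h : ℕ) : ℤ) < 0 := by
      have : ((C x.1 x.2 : ℕ) : ℤ) < ((h : ℕ) : ℤ) := by exact_mod_cast hb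
      omega
    rw [max_eq_right hb'.le] at k
    rcases T.W_cases (Sum.inr (Sum.inr h)) (Sum.inl x) with h1 | h1 <;> rw [h1] at k ⊢
    omega
  · intro h b
    have k := key (Sum.inr (Sum.inr h)) (Sum.inr (Sum.inl b))
    simp only [pw, qw, gw, hY, zero_mul, add_zero] at k
    rcases T.W_cases (Sum.inr (Sum.inr h)) (Sum.inr (Sum.inl b)) with h1 | h1 <;> rw [h1] at k ⊢
    omega

end Pool.Agent.Work.MP_1a5986_lc
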