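import Pool.Agent.Work.MP_1a5986_lc.TomoB

namespace Pool.Agent.Work.MP_1a5986_lc

open Finset

set_option linter.unusedSectionVars false

variable {P : Type} [Fintype P] [DecidableEq P] {R H : ℕ}

theorem sum_fin_ind (R n : ℕ) (h : n < R) (f : Fin R → ℤ)
    (h1 : ∀ b : Fin R, (b : ℕ) < n → f b = 1) (h0 : ∀ b : Fin R, n < (b : ℕ) → f b = 0) :
    ∑ b, f b = n + f ⟨n, h⟩ := by
  have : ∀ b : Fin R, f b = (if (b : ℕ) < n then (1 : ℤ) else 0)
      + if b = ⟨n, h⟩ then f ⟨n, h⟩ else 0 := by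
    intro b
    rcases lt_trichotomy (b : ℕ) n with hb | hb | hb
    · have : b ≠ ⟨n, h⟩ := by rintro rfl; exact lt_irrefl _ hb
      simp [hb, this, h1 b hb]
    · have : b = ⟨n, h⟩ := Fin.ext hb
      subst this
      simp
    · have : b ≠ ⟨n, h⟩ := by rintro rfl; exact lt_irrefl _ hb
      have h' : ¬ (b : ℕ) < n := by omega
      simp [h', this, h0 b hb]
  rw [Finset.sum_congr rfl fun b _ => this b, Finset.sum_add_distrib, card_lt_fin R n h.le]
  simp

theorem tomo_back (A : P → ℕ) (hA : Function.Injective A) (C : P → Bool → ℕ)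
    (hC : ∀ p e, C p e < H) (hB : ∀ p e, A p + C p e < R) (ρ δ : ℕ → ℕ)
    (hρ : ∑ h ∈ range H, ρ h = Fintype.card P)
    (hcons : (∑ p, A p) + (∑ h ∈ range H, h * ρ h) + (∑ b ∈ range R, b * δ b)
      = ∑ x : P × Bool, (A x.1 + C x.1 x.2))
    (T : Tournament (Teams P R H)) (hw : ∀ i, T.wins i = tabW A C ρ i)
    (hl : ∀ i, T.losses i = tabL A C δ i) :
    ∃ sel : P → Bool,
      (∀ h < H, (Finset.univ.filter fun p => C p (sel p) = h).card = ρ h) ∧
      (∀ b < R, (Finset.univ.filter fun p => A p + C p (!sel p) = b).card = δ b) := by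
  obtain ⟨hY, hZ, hxx, hx1, hb1, hb0, hh1, hh0, hhb⟩ :=
    table_structure A hA C hC hB ρ δ hρ hcons T hw hl
  -- wins inside X
  have ht : ∀ x : P × Bool, ∑ y : P × Bool, T.W (Sum.inl x) (Sum.inl y)
      = 2 * (below A x.1 : ℤ) + T.W (Sum.inl x) (Sum.inl (x.1, !x.2)) := by
    intro x
    rw [← card_below2 A x.1]
    have : ∀ y : P × Bool, T.W (Sum.inl x) (Sum.inl y)
        = (if A y.1 < A x.1 then (1 : ℤ) else 0)
          + if y = (x.1, !x.2) then T.W (Sum.inl x) (Sum.inl (x.1, !x.2)) else 0 := by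
      intro y
      rcases lt_trichotomy (A y.1) (A x.1) with h | h | h
      · have hne : y ≠ (x.1, !x.2) := by rintro rfl; exact lt_irrefl _ h
        simp [h, hne, hxx x y h]
      · have h' : ¬ A y.1 < A x.1 := by omega
        have hp : y.1 = x.1 := hA h
        rw [if_neg h', zero_add]
        by_cases hy : y = (x.1, !x.2)
        · rw [if_pos hy, hy]
        · rw [if_neg hy]
          have : y = x := by
            refine Prod.ext hp ?_
            by_contra hne
            apply hy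
            refine Prod.ext hp ?_
            cases h1 : y.2 <;> cases h2 : x.2 <;> simp_all
          rw [this, T.W_self]
      · have h' : ¬ A y.1 < A x.1 := by omega
        have hne : y ≠ (x.1, !x.2) := by rintro rfl; exact lt_irrefl _ h
        have h1 := hxx y x h
        have h2 := T.W_add (Sum.inl y) (Sum.inl x)
        have h3 := T.W_nonneg (Sum.inl x) (Sum.inl y)
        rw [if_neg h', if_neg hne]
        omega
    rw [Finset.sum_congr rfl fun y _ => this y, Finset.sum_add_distrib]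
    simp
  have hτ : ∀ x : P × Bool, ∑ y : P × Bool, T.W (Sum.inl y) (Sum.inl x)
      = 2 * (Fintype.card P : ℤ) - 1 - ∑ y : P × Bool, T.W (Sum.inl x) (Sum.inl y) := by
    intro x
    have h1 : ∑ y : P × Bool, (T.W (Sum.inl x) (Sum.inl y) + T.W (Sum.inl y) (Sum.inl x))
        = ∑ y : P × Bool, ((1 : ℤ) - if x = y then 1 else 0) := by
      refine Finset.sum_congr rfl fun y _ => ?_
      by_cases hxy : x = y
      · subst hxy; simp [T.W_self]
      · rw [hx1 x y hxy, if_neg hxy]; ring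
    rw [Finset.sum_add_distrib, Finset.sum_sub_distrib] at h1
    simp only [Finset.sum_const, Finset.card_univ, Fintype.card_prod, Fintype.card_bool,
      nsmul_eq_mul, mul_one, Finset.sum_ite_eq, Finset.mem_univ, if_true] at h1
    push_cast at h1
    linarith
  have hbx : ∀ x : P × Bool, ∑ b : Fin R, T.W (Sum.inl x) (Sum.inr (Sum.inl b))
      = ((A x.1 + C x.1 x.2 : ℕ) : ℤ)
        + T.W (Sum.inl x) (Sum.inr (Sum.inl ⟨A x.1 + C x.1 x.2, hB x.1 x.2⟩)) := fun x =>
    sum_fin_ind R _ (hB x.1 x.2) (fun b => T.W (Sum.inl x) (Sum.inr (Sum.inl b)))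
      (hb1 x) (hb0 x)
  have hhx : ∀ x : P × Bool, ∑ h : Fin H, T.W (Sum.inr (Sum.inr h)) (Sum.inl x)
      = ((C x.1 x.2 : ℕ) : ℤ)
        + T.W (Sum.inr (Sum.inr ⟨C x.1 x.2, hC x.1 x.2⟩)) (Sum.inl x) := fun x =>
    sum_fin_ind H _ (hC x.1 x.2) (fun h => T.W (Sum.inr (Sum.inr h)) (Sum.inl x))
      (hh1 x) (hh0 x)
  -- the three decisions agree
  have hφ : ∀ x : P × Bool,
      T.W (Sum.inl x) (Sum.inr (Sum.inl ⟨A x.1 + C x.1 x.2, hB x.1 x.2⟩))
        = 1 - T.W (Sum.inl x) (Sum.inl (x.1, !x.2)) := by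
    intro x
    have h1 := T.wins_eq (Sum.inl x)
    rw [hw, Fintype.sum_sum_type, Fintype.sum_sum_type, ht, hbx] at h1
    simp only [hZ, Finset.sum_const_zero, add_zero, tabW] at h1
    push_cast at h1
    push_cast
    linarith
  have hψ : ∀ x : P × Bool,
      T.W (Sum.inr (Sum.inr ⟨C x.1 x.2, hC x.1 x.2⟩)) (Sum.inl x)
        = T.W (Sum.inl x) (Sum.inl (x.1, !x.2)) := by
    intro x
    have h1 := T.losses_eq (Sum.inl x)
    rw [hl, tabL_inl, Fintype.sum_sum_type, Fintype.sum_sum_type, hτ, ht, hhx] at h1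
    simp only [hY, Finset.sum_const_zero, zero_add] at h1
    linarith
  have hnot : ∀ p : P, T.W (Sum.inl (p, false)) (Sum.inl (p, true))
      = 1 - T.W (Sum.inl (p, true)) (Sum.inl (p, false)) := by
    intro p
    have := hx1 (p, true) (p, false) (by simp)
    linarith
  let sel : P → Bool := fun p => decide (T.W (Sum.inl (p, true)) (Sum.inl (p, false)) = 1)
  have hε : ∀ (p : P) (e : Bool), T.W (Sum.inl (p, e)) (Sum.inl (p, !e))
      = if e = sel p then 1 else 0 := by
    intro p e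
    rcases T.W_cases (Sum.inl (p, true)) (Sum.inl (p, false)) with h | h
    · have hs : sel p = false := by simp [sel, h]
      rw [hs]
      cases e
      · simp [hnot, h]
      · simp [h]
    · have hs : sel p = true := by simp [sel, h]
      rw [hs]
      cases e
      · simp [hnot, h]
      · simp [h]
  refine ⟨sel, ?_, ?_⟩
  · intro h hh
    have h1 := T.wins_eq (Sum.inr (Sum.inr ⟨h, hh⟩))
    rw [hw, Fintype.sum_sum_type, Fintype.sum_sum_type] at h1
    simp only [hZ, hhb, Finset.sum_const_zero, add_zero, tabW] at h1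
    have h2 : ∑ x : P × Bool, T.W (Sum.inr (Sum.inr ⟨h, hh⟩)) (Sum.inl x)
        = (∑ x : P × Bool, if h < C x.1 x.2 then (1 : ℤ) else 0)
          + ∑ x : P × Bool, if C x.1 x.2 = h ∧ x.2 = sel x.1 then (1 : ℤ) else 0 := by
      rw [← Finset.sum_add_distrib]
      refine Finset.sum_congr rfl fun x _ => ?_
      rcases lt_trichotomy h (C x.1 x.2) with hc | hc | hc
      · have h' : ¬ C x.1 x.2 = h := by omega
        rw [hh1 x ⟨h, hh⟩ hc]
        simp [hc, h']
      · have h' : ¬ h < C x.1 x.2 := by omega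
        have h4 := hψ x
        have h5 : (⟨h, hh⟩ : Fin H) = ⟨C x.1 x.2, hC x.1 x.2⟩ := Fin.ext hc
        rw [h5, h4, hε x.1 x.2]
        simp [h', hc]
      · have h' : ¬ h < C x.1 x.2 := by omega
        have h'' : ¬ C x.1 x.2 = h := by omega
        rw [hh0 x ⟨h, hh⟩ hc]
        simp [h', h'']
    rw [h2, Finset.card_filter] at h1
    push_cast at h1
    have h3 : (∑ x : P × Bool, if C x.1 x.2 = h ∧ x.2 = sel x.1 then (1 : ℤ) else 0)
        = ∑ p : P, if C p (sel p) = h then (1 : ℤ) else 0 := by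
      rw [Fintype.sum_prod_type]
      refine Finset.sum_congr rfl fun p _ => ?_
      rw [Fintype.sum_bool]
      cases sel p <;> simp
    rw [h3] at h1
    have h6 : (ρ h : ℤ) = ∑ p : P, if C p (sel p) = h then (1 : ℤ) else 0 := by linarith
    rw [Finset.card_filter]
    exact_mod_cast h6.symm
  · intro b hb
    have h1 := T.losses_eq (Sum.inr (Sum.inl ⟨b, hb⟩))
    rw [hl, Fintype.sum_sum_type, Fintype.sum_sum_type] at h1
    simp only [hY, hhb, Finset.sum_const_zero, add_zero, tabL] at h1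
    have h2 : ∑ x : P × Bool, T.W (Sum.inl x) (Sum.inr (Sum.inl ⟨b, hb⟩))
        = (∑ x : P × Bool, if b < A x.1 + C x.1 x.2 then (1 : ℤ) else 0)
          + ∑ x : P × Bool, if A x.1 + C x.1 x.2 = b ∧ x.2 ≠ sel x.1 then (1 : ℤ) else 0 := by
      rw [← Finset.sum_add_distrib]
      refine Finset.sum_congr rfl fun x _ => ?_
      rcases lt_trichotomy b (A x.1 + C x.1 x.2) with hc | hc | hc
      · have h' : ¬ A x.1 + C x.1 x.2 = b := by omega
        rw [hb1 x ⟨b, hb⟩ hc]
        simp [hc, h']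
      · have h' : ¬ b < A x.1 + C x.1 x.2 := by omega
        have h4 := hφ x
        have h5 : (⟨b, hb⟩ : Fin R) = ⟨A x.1 + C x.1 x.2, hB x.1 x.2⟩ := Fin.ext hc
        rw [h5, h4, hε x.1 x.2, if_neg h', zero_add]
        by_cases hs : x.2 = sel x.1
        · simp [hs]
        · simp [hs, hc.symm]
      · have h' : ¬ b < A x.1 + C x.1 x.2 := by omega
        have h'' : ¬ A x.1 + C x.1 x.2 = b := by omega
        rw [hb0 x ⟨b, hb⟩ hc]
        simp [h', h'']
    rw [h2, Finset.card_filter] at h1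
    push_cast at h1
    have h3 : (∑ x : P × Bool, if A x.1 + C x.1 x.2 = b ∧ x.2 ≠ sel x.1 then (1 : ℤ) else 0)
        = ∑ p : P, if A p + C p (!sel p) = b then (1 : ℤ) else 0 := by
      rw [Fintype.sum_prod_type]
      refine Finset.sum_congr rfl fun p _ => ?_
      rw [Fintype.sum_bool]
      cases sel p <;> simp
    rw [h3] at h1
    have h6 : (δ b : ℤ) = ∑ p : P, if A p + C p (!sel p) = b then (1 : ℤ) else 0 := by linarith
    rw [Finset.card_filter]
    exact_mod_cast h6.symm

end Pool.Agent.Work.MP_1a5986_lc
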