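import Pool.Agent.Work.MP_1a5986_lc.TomoC

namespace Pool.Agent.Work.MP_1a5986_lc

open Finset

set_option linter.unusedSectionVars false

variable {P : Type} [Fintype P] [DecidableEq P] {R H : ℕ}

/-- The results of the tournament built from a selection. -/
private def mkRes (A : P → ℕ) (C : P → Bool → ℕ) (sel : P → Bool) :
    Teams P R H → Teams P R H → Res
  | .inl x, .inl y => if A y.1 < A x.1 then Res.win else if A x.1 < A y.1 then Res.loss
      else if x.2 = sel x.1 then Res.win else Res.loss
  | .inl x, .inr (.inl b) =>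
      if (b : ℕ) < A x.1 + C x.1 x.2 ∨ (A x.1 + C x.1 x.2 = (b : ℕ) ∧ x.2 ≠ sel x.1)
        then Res.win else Res.draw
  | .inr (.inl b), .inl x =>
      if (b : ℕ) < A x.1 + C x.1 x.2 ∨ (A x.1 + C x.1 x.2 = (b : ℕ) ∧ x.2 ≠ sel x.1)
        then Res.loss else Res.draw
  | .inl x, .inr (.inr h) =>
      if (h : ℕ) < C x.1 x.2 ∨ (C x.1 x.2 = (h : ℕ) ∧ x.2 = sel x.1)
        then Res.loss else Res.draw
  | .inr (.inr h), .inl x =>
      if (h : ℕ) < C x.1 x.2 ∨ (C x.1 x.2 = (h : ℕ) ∧ x.2 = sel x.1)
        then Res.win else Res.draw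
  | .inr _, .inr _ => Res.draw

private theorem pair_eq {x y : P × Bool} (h : y.1 = x.1) (hne : x ≠ y) : y.2 = !x.2 := by
  cases h1 : y.2 <;> cases h2 : x.2 <;> simp <;> exact hne (Prod.ext h.symm (by rw [h1, h2]))

private theorem mkRes_swap (A : P → ℕ) (hA : Function.Injective A) (C : P → Bool → ℕ)
    (sel : P → Bool) (i j : Teams P R H) (hij : i ≠ j) :
    mkRes A C sel j i = (mkRes A C sel i j).swap := by
  rcases i with x | b | h <;> rcases j with y | b' | h'
  · simp only [mkRes]
    rcases lt_trichotomy (A y.1) (A x.1) with hc | hc | hc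
    · have h' : ¬ A x.1 < A y.1 := by omega
      simp [hc, h', Res.swap]
    · have hp : y.1 = x.1 := hA hc
      have hne : x ≠ y := fun e => hij (by rw [e])
      have he := pair_eq hp hne
      rw [he, hp]
      cases x.2 <;> cases sel x.1 <;> simp [Res.swap]
    · have h' : ¬ A y.1 < A x.1 := by omega
      simp [hc, h', Res.swap]
  · simp only [mkRes]; split <;> simp [Res.swap]
  · simp only [mkRes]; split <;> simp [Res.swap]
  · simp only [mkRes]; split <;> simp [Res.swap]
  · simp [mkRes, Res.swap]
  · simp [mkRes, Res.swap]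
  · simp only [mkRes]; split <;> simp [Res.swap]
  · simp [mkRes, Res.swap]
  · simp [mkRes, Res.swap]

/-- The tournament built from a selection. -/
private def mkT (A : P → ℕ) (hA : Function.Injective A) (C : P → Bool → ℕ) (sel : P → Bool) :
    Tournament (Teams P R H) := ⟨mkRes A C sel, fun i j h => mkRes_swap A hA C sel i j h⟩

private theorem sum_fin_split (R n : ℕ) (h : n < R) (c : ℤ) :
    (∑ b : Fin R, ((if (b : ℕ) < n then (1 : ℤ) else 0) + if n = (b : ℕ) then c else 0)) = n + c := by
  have := sum_fin_ind R n h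
    (fun b : Fin R => (if (b : ℕ) < n then (1 : ℤ) else 0) + if n = (b : ℕ) then c else 0)
    (by intro b hb; have : ¬ n = (b : ℕ) := by omega
        simp [hb, this])
    (by intro b hb; have : ¬ n = (b : ℕ) := by omega
        have h2 : ¬ (b : ℕ) < n := by omega
        simp [h2, this])
  rw [this]
  simp

theorem tomo_fwd (A : P → ℕ) (hA : Function.Injective A) (C : P → Bool → ℕ)
    (hC : ∀ p e, C p e < H) (hB : ∀ p e, A p + C p e < R) (ρ δ : ℕ → ℕ)
    (sel : P → Bool)
    (hs : ∀ h < H, (Finset.univ.filter fun p => C p (sel p) = h).card = ρ h)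
    (hn : ∀ b < R, (Finset.univ.filter fun p => A p + C p (!sel p) = b).card = δ b) :
    ∃ T : Tournament (Teams P R H), (∀ i, T.wins i = tabW A C ρ i) ∧
      (∀ i, T.losses i = tabL A C δ i) := by
  let T : Tournament (Teams P R H) := mkT A hA C sel
  have hres : ∀ i j, T.res i j = mkRes A C sel i j := fun _ _ => rfl
  have hxx : ∀ x y : P × Bool, T.W (Sum.inl x) (Sum.inl y)
      = (if A y.1 < A x.1 then (1 : ℤ) else 0)
        + if y = (x.1, !x.2) then (if x.2 = sel x.1 then 1 else 0) else 0 := by
    intro x y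
    simp only [Tournament.W, hres, mkRes]
    rcases lt_trichotomy (A y.1) (A x.1) with hc | hc | hc
    · have hne : y ≠ (x.1, !x.2) := by rintro rfl; exact lt_irrefl _ hc
      have hne' : y ≠ x := by rintro rfl; exact lt_irrefl _ hc
      simp [hc, hne, hne']
    · have hp : y.1 = x.1 := hA hc
      by_cases hxy : x = y
      · subst hxy
        have : x ≠ (x.1, !x.2) := by
          intro e
          have := congrArg Prod.snd e
          simp at this
        simp [this]
      · have he := pair_eq hp hxy
        have hy : y = (x.1, !x.2) := Prod.ext hp he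
        rw [hy]
        simp only [lt_irrefl, if_false]
        have : (Sum.inl (x.1, !x.2) : Teams P R H) ≠ Sum.inl x := by
          intro e
          have := congrArg Prod.snd (Sum.inl.inj e)
          simp at this
        by_cases h5 : x.2 = sel x.1
        · rw [if_pos h5, if_pos h5]
          simp [this]
        · rw [if_neg h5, if_neg h5]
          simp
    · have hne : y ≠ (x.1, !x.2) := by rintro rfl; exact lt_irrefl _ hc
      have h' : ¬ A y.1 < A x.1 := by omega
      simp [hc, hne, h']
  have hxb : ∀ (x : P × Bool) (b : Fin R), T.W (Sum.inl x) (Sum.inr (Sum.inl b))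
      = (if (b : ℕ) < A x.1 + C x.1 x.2 then (1 : ℤ) else 0)
        + if A x.1 + C x.1 x.2 = (b : ℕ) then (if x.2 ≠ sel x.1 then 1 else 0) else 0 := by
    intro x b
    simp only [Tournament.W, hres, mkRes]
    rcases lt_trichotomy (b : ℕ) (A x.1 + C x.1 x.2) with hc | hc | hc
    · have : ¬ A x.1 + C x.1 x.2 = (b : ℕ) := by omega
      simp [hc, this]
    · by_cases h5 : x.2 = sel x.1
      · simp [hc, h5]
      · simp [hc, h5]
    · have h1 : ¬ A x.1 + C x.1 x.2 = (b : ℕ) := by omega
      have h2 : ¬ (b : ℕ) < A x.1 + C x.1 x.2 := by omega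
      simp [h1, h2]
  have hhx : ∀ (x : P × Bool) (h : Fin H), T.W (Sum.inr (Sum.inr h)) (Sum.inl x)
      = (if (h : ℕ) < C x.1 x.2 then (1 : ℤ) else 0)
        + if C x.1 x.2 = (h : ℕ) then (if x.2 = sel x.1 then 1 else 0) else 0 := by
    intro x h
    simp only [Tournament.W, hres, mkRes]
    rcases lt_trichotomy (h : ℕ) (C x.1 x.2) with hc | hc | hc
    · have : ¬ C x.1 x.2 = (h : ℕ) := by omega
      simp [hc, this]
    · by_cases h5 : x.2 = sel x.1
      · simp [hc, h5]
      · simp [hc, h5]
    · have h1 : ¬ C x.1 x.2 = (h : ℕ) := by omega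
      have h2 : ¬ (h : ℕ) < C x.1 x.2 := by omega
      simp [h1, h2]
  have hxh : ∀ (x : P × Bool) (h : Fin H), T.W (Sum.inl x) (Sum.inr (Sum.inr h)) = 0 := by
    intro x h
    simp only [Tournament.W, hres, mkRes]
    split_ifs <;> simp_all
  have hbx : ∀ (x : P × Bool) (b : Fin R), T.W (Sum.inr (Sum.inl b)) (Sum.inl x) = 0 := by
    intro x b
    simp only [Tournament.W, hres, mkRes]
    split_ifs <;> simp_all
  have hrr : ∀ i j : Fin R ⊕ Fin H, T.W (Sum.inr i) (Sum.inr j) = 0 := by
    intro i j
    simp [Tournament.W, hres, mkRes]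
  have ht : ∀ x : P × Bool, ∑ y : P × Bool, T.W (Sum.inl x) (Sum.inl y)
      = 2 * (below A x.1 : ℤ) + (if x.2 = sel x.1 then 1 else 0) := by
    intro x
    simp only [hxx, Finset.sum_add_distrib, card_below2]
    simp
  have hτ : ∀ x : P × Bool, ∑ y : P × Bool, T.W (Sum.inl y) (Sum.inl x)
      = 2 * (Fintype.card P : ℤ) - 1 - ∑ y : P × Bool, T.W (Sum.inl x) (Sum.inl y) := by
    intro x
    have h1 : ∑ y : P × Bool, (T.W (Sum.inl x) (Sum.inl y) + T.W (Sum.inl y) (Sum.inl x))
        = ∑ y : P × Bool, ((1 : ℤ) - if x = y then 1 else 0) := by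
      refine Finset.sum_congr rfl fun y _ => ?_
      by_cases hxy : x = y
      · subst hxy; simp [T.W_self]
      · rw [if_neg hxy, hxx, hxx]
        rcases lt_trichotomy (A y.1) (A x.1) with hc | hc | hc
        · have hne : y ≠ (x.1, !x.2) := by rintro rfl; exact lt_irrefl _ hc
          have hne' : x ≠ (y.1, !y.2) := by rintro rfl; exact lt_irrefl _ hc
          have h' : ¬ A x.1 < A y.1 := by omega
          simp [hc, hne, hne', h']
        · have hp : y.1 = x.1 := hA hc
          have he := pair_eq hp hxy
          have hy : y = (x.1, !x.2) := Prod.ext hp he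
          have hx : x = (y.1, !y.2) := by rw [hy]; simp
          rw [if_pos hy, if_pos hx, hc, he, hp]
          cases x.2 <;> cases sel x.1 <;> simp
        · have hne : y ≠ (x.1, !x.2) := by rintro rfl; exact lt_irrefl _ hc
          have hne' : x ≠ (y.1, !y.2) := by rintro rfl; exact lt_irrefl _ hc
          have h' : ¬ A y.1 < A x.1 := by omega
          simp [hc, hne, hne', h']
    rw [Finset.sum_add_distrib, Finset.sum_sub_distrib] at h1
    simp only [Finset.sum_const, Finset.card_univ, Fintype.card_prod, Fintype.card_bool,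
      nsmul_eq_mul, mul_one, Finset.sum_ite_eq, Finset.mem_univ, if_true] at h1
    push_cast at h1
    linarith
  refine ⟨T, ?_, ?_⟩
  · rintro (x | b | h)
    · have h1 := T.wins_eq (Sum.inl x)
      rw [Fintype.sum_sum_type, Fintype.sum_sum_type, ht] at h1
      simp only [hxb, hxh, Finset.sum_const_zero, add_zero] at h1
      rw [sum_fin_split R _ (hB x.1 x.2)] at h1
      have h2 : (T.wins (Sum.inl x) : ℤ) = ((2 * below A x.1 + (A x.1 + C x.1 x.2) + 1 : ℕ) : ℤ) := by
        rw [h1]
        by_cases h5 : x.2 = sel x.1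
        · simp [h5]; ring
        · simp [h5]; ring
      exact_mod_cast h2
    · have h1 := T.wins_eq (Sum.inr (Sum.inl b))
      rw [Fintype.sum_sum_type] at h1
      simp only [hbx, hrr, Finset.sum_const_zero, add_zero] at h1
      exact_mod_cast h1
    · have h1 := T.wins_eq (Sum.inr (Sum.inr h))
      rw [Fintype.sum_sum_type] at h1
      simp only [hhx, hrr, Finset.sum_const_zero, add_zero, Finset.sum_add_distrib] at h1
      have h3 : (∑ x : P × Bool, if C x.1 x.2 = (h : ℕ) then (if x.2 = sel x.1 then (1 : ℤ) else 0)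
          else 0) = (ρ h : ℤ) := by
        rw [← hs h h.2, Finset.card_filter, Fintype.sum_prod_type]
        push_cast
        refine Finset.sum_congr rfl fun p _ => ?_
        rw [Fintype.sum_bool]
        cases sel p <;> simp
      rw [h3] at h1
      have h4 : (T.wins (Sum.inr (Sum.inr h)) : ℤ)
          = (((Finset.univ.filter fun x : P × Bool => (h : ℕ) < C x.1 x.2).card + ρ h : ℕ) : ℤ) := by
        rw [h1, Finset.card_filter]
        push_cast
        rfl
      exact_mod_cast h4
  · rintro (x | b | h)
    · have h1 := T.losses_eq (Sum.inl x)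
      rw [Fintype.sum_sum_type, Fintype.sum_sum_type, hτ, ht] at h1
      simp only [hhx, hbx, Finset.sum_const_zero, zero_add] at h1
      rw [sum_fin_split H _ (hC x.1 x.2)] at h1
      have h2 : (T.losses (Sum.inl x) : ℤ) = ((tabL A C δ (Sum.inl x : Teams P R H) : ℕ) : ℤ) := by
        rw [h1, tabL_inl]
        ring
      exact_mod_cast h2
    · have h1 := T.losses_eq (Sum.inr (Sum.inl b))
      rw [Fintype.sum_sum_type] at h1
      simp only [hxb, hrr, Finset.sum_const_zero, add_zero, Finset.sum_add_distrib] at h1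
      have h3 : (∑ x : P × Bool, if A x.1 + C x.1 x.2 = (b : ℕ) then
          (if x.2 ≠ sel x.1 then (1 : ℤ) else 0) else 0) = (δ b : ℤ) := by
        rw [← hn b b.2, Finset.card_filter, Fintype.sum_prod_type]
        push_cast
        refine Finset.sum_congr rfl fun p _ => ?_
        rw [Fintype.sum_bool]
        cases sel p <;> simp
      rw [h3] at h1
      have h4 : (T.losses (Sum.inr (Sum.inl b)) : ℤ)
          = (((Finset.univ.filter fun x : P × Bool => (b : ℕ) < A x.1 + C x.1 x.2).card
            + δ b : ℕ) : ℤ) := by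
        rw [h1, Finset.card_filter]
        push_cast
        rfl
      exact_mod_cast h4
    · have h1 := T.losses_eq (Sum.inr (Sum.inr h))
      rw [Fintype.sum_sum_type] at h1
      simp only [hxh, hrr, Finset.sum_const_zero, add_zero] at h1
      exact_mod_cast h1

end Pool.Agent.Work.MP_1a5986_lc
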